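import Mathlib

/-!
# MP_7903c7_al: the Bass trace conjecture for groups of piecewise projective bijections of the circle

Definitions and exact statements of the parts (interface of the project BT, helper86).
-/

set_option autoImplicit false

open Set Filter Topology

namespace Pool.Agent.H86.BT

/-- the circle `ℝ ∪ {∞}` -/
abbrev S : Type := OnePoint ℝ

/-- the group of the homeomorphisms of the circle -/
abbrev HS : Type := S ≃ₜ S

/-- `f` is piecewise in `P`: there is a finite set of points of the line such that `f` coincides with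
an element of `P` on every interval of the line which contains none of these points (`∞` is always
an exceptional point) -/
def PW (P : Set HS) (f : S → S) : Prop :=
  ∃ F : Finset ℝ, ∀ I : Set ℝ, I.OrdConnected → (∀ x ∈ F, x ∉ I) →
    ∃ l ∈ P, ∀ x ∈ I, f (x : S) = l (x : S)

/-- the elements of `P` different from the identity have finitely many fixed points -/
def FF (P : Set HS) : Prop := ∀ l ∈ P, l ≠ 1 → {x : S | l x = x}.Finite

/-- finitely additive probability on all subsets of `X` without atoms at points, invariant under `h`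
and `t`, such that the fixed point sets of the powers of `h` are null sets -/
structure Mean {X : Type*} (h t : Equiv.Perm X) where
  μ : Set X → ℝ
  nonneg : ∀ A, 0 ≤ μ A
  univ : μ univ = 1
  add : ∀ A B, Disjoint A B → μ (A ∪ B) = μ A + μ B
  single : ∀ x, μ {x} = 0
  inv_h : ∀ A, μ (h ⁻¹' A) = μ A
  inv_t : ∀ A, μ (t ⁻¹' A) = μ A
  fix : ∀ n : ℕ, 0 < n → μ {x | (h ^ n) x = x} = 0

/-- the distribution function of `μ` on the line (and `0` at `∞`) -/
noncomputable def Fd (μ : Set S → ℝ) : S → ℝ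
  | some x => μ ((fun y : ℝ => (y : S)) '' Iio x)
  | none => 0

/-- the standard one-sided neighbourhood filter, to the right of `0` -/
noncomputable def e0 : Filter S := map (fun y : ℝ => (y : S)) (𝓝[>] (0 : ℝ))

/-- the one-sided neighbourhood filters on the circle: the images of `e0` under the
homeomorphisms of the circle -/
def IsEnd (f : Filter S) : Prop := ∃ κ : HS, f = map κ e0

/-- `μ` has mass at least `δ` at the end `f` -/
def Atom (μ : Set S → ℝ) (δ : ℝ) (f : Filter S) : Prop := IsEnd f ∧ ∀ A ∈ f, δ ≤ μ A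

/-! ## The parts -/

/-- PART M (mean). -/
def R_M : Prop := ∀ (X : Type) (h t : Equiv.Perm X) (m : ℕ), t * h * t⁻¹ = h ^ m →
  (∀ n : ℕ, 0 < n → {x | (h ^ n) x ≠ x}.Infinite) → Nonempty (Mean h t)

/-- PART C (counting). -/
def R_C : Prop := ∀ (X : Type) (h t : Equiv.Perm X) (m : ℕ), 2 ≤ m → t * h * t⁻¹ = h ^ m →
  ∀ (F : X → ℝ) (C : Finset (ℝ × ℝ)), (∀ c ∈ C, c.1 = 1 ∨ c.1 = -1) →
  (∀ x, ∃ c ∈ C, F (h x) = c.1 * F x + c.2) → (∀ x, ∃ c ∈ C, F (t x) = c.1 * F x + c.2) →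
  ∃ L : ℕ, ∀ z : X, ∃ j d : ℕ, j < L ∧ 0 < d ∧ d ≤ L ∧ F ((h ^ d) ((h ^ j) z)) = F ((h ^ j) z)

/-- PART O1 (one piece): an homeomorphism of the circle, restricted to an interval of the line with
image in the line, is continuous and strictly monotone there. -/
def R_O1 : Prop := ∀ (l : HS) (J : Set ℝ), J.OrdConnected → (∀ x ∈ J, l (x : S) ≠ OnePoint.infty) →
  ∃ φ : ℝ → ℝ, (∀ x ∈ J, l (x : S) = (φ x : S)) ∧ ContinuousOn φ J ∧
    (StrictMonoOn φ J ∨ StrictAntiOn φ J)

/-- PART O2 (finitely many pieces): a piecewise homeomorphism has, off a finite set of points of the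
circle, finitely many pieces with images in the line. -/
def R_O2 : Prop := ∀ (P : Set HS) (g : Equiv.Perm S), PW P g →
  ∃ (E : Set S) (n : ℕ) (J : Fin n → Set ℝ) (l : Fin n → HS), E.Finite ∧
    (∀ s : S, s ∈ E ∨ ∃ i, ∃ x ∈ J i, s = (x : S)) ∧
    ∀ i, (J i).OrdConnected ∧ l i ∈ P ∧ ∀ x ∈ J i, g (x : S) = l i (x : S) ∧
      l i (x : S) ≠ OnePoint.infty

/-- PART O3 (the distribution function on one piece). -/
def R_O3 : Prop := ∀ (μ : Set S → ℝ), (∀ A, 0 ≤ μ A) →
  (∀ A B, Disjoint A B → μ (A ∪ B) = μ A + μ B) → (∀ x, μ {x} = 0) →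
  ∀ g : Equiv.Perm S, (∀ A, μ (g ⁻¹' A) = μ A) →
  ∀ (J : Set ℝ) (φ : ℝ → ℝ), J.OrdConnected → (∀ x ∈ J, g (x : S) = (φ x : S)) →
  ContinuousOn φ J →
  (StrictMonoOn φ J → ∃ c : ℝ, ∀ x ∈ J, Fd μ (φ x : S) = Fd μ (x : S) + c) ∧
  (StrictAntiOn φ J → ∃ c : ℝ, ∀ x ∈ J, Fd μ (φ x : S) = - Fd μ (x : S) + c)

/-- PART N (no atoms): if `μ` has no atoms at ends then the set of the `x` with
`F (g x) = F (x)` is a null set, for every piecewise `P` bijection `g` which preserves `μ` and has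
a null set of fixed points. (uses O1, O2, O3, E) -/
def R_N : Prop := ∀ (μ : Set S → ℝ), (∀ A, 0 ≤ μ A) → μ univ = 1 →
  (∀ A B, Disjoint A B → μ (A ∪ B) = μ A + μ B) → (∀ x, μ {x} = 0) →
  (∀ f, IsEnd f → ∀ ε : ℝ, 0 < ε → ∃ A ∈ f, μ A < ε) →
  ∀ (P : Set HS) (g : Equiv.Perm S), FF P → PW P g → (∀ A, μ (g ⁻¹' A) = μ A) →
  μ {x | g x = x} = 0 → μ {x | Fd μ (g x) = Fd μ x} = 0

/-- PART E1 (the one-sided neighbourhood filters are ends). -/
def R_E1 : Prop := (∀ x : ℝ, IsEnd (map (fun y : ℝ => (y : S)) (𝓝[>] x)) ∧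
    IsEnd (map (fun y : ℝ => (y : S)) (𝓝[<] x))) ∧
  IsEnd (map (fun y : ℝ => (y : S)) atBot) ∧ IsEnd (map (fun y : ℝ => (y : S)) atTop)

/-- PART E2 (different ends are disjoint). -/
def R_E2 : Prop := ∀ f f' : Filter S, IsEnd f → IsEnd f' → f ≠ f' → Disjoint f f'

/-- PART E3 (germs of piecewise homeomorphisms at the ends; ends are nontrivial filters which
converge to a point and contain the complements of the finite sets). -/
def R_E3 : Prop := (∀ (P : Set HS) (g : S → S), PW P g → ∀ f, IsEnd f →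
    ∃ l ∈ P, ∀ᶠ s in f, g s = l s) ∧
  ∀ f, IsEnd f → f.NeBot ∧ (∃ x, f ≤ 𝓝 x) ∧ ∀ A : Set S, A.Finite → Aᶜ ∈ f

/-- PART A (the dynamical theorem). (uses all parts above) -/
def R_A : Prop := ∀ (L : Subgroup HS), FF (L : Set HS) → ∀ (G : Type) [Group G]
  (ρ : G →* Equiv.Perm S), (∀ g, PW (L : Set HS) (ρ g)) →
  ∀ (h t : G) (m : ℕ), 2 ≤ m → t * h * t⁻¹ = h ^ m →
  (∀ n : ℕ, 0 < n → {x | ρ (h ^ n) x ≠ x}.Infinite) →
  ∃ (x : S) (l θ : HS) (k : ℕ), l ∈ L ∧ θ ∈ L ∧ 0 < k ∧ l x = x ∧ θ x = x ∧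
    (∀ n : ℕ, 0 < n → l ^ n ≠ 1) ∧ θ * l * θ⁻¹ = l ^ (m ^ k)

end Pool.Agent.H86.BT
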