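import Pool.Agent.H86.BT.Defs

set_option autoImplicit false

open Set Filter Topology

namespace Pool.Agent.H86.BT.C

variable {X : Type} {h t : Equiv.Perm X} {m : ℕ}

/-- `y` can be reached from `x` with at most `n` steps `h` or `t` -/
inductive Reach (h t : Equiv.Perm X) (x : X) : ℕ → X → Prop
  | refl : Reach h t x 0 x
  | stay {n : ℕ} {y : X} : Reach h t x n y → Reach h t x (n + 1) y
  | step_h {n : ℕ} {y : X} : Reach h t x n y → Reach h t x (n + 1) (h y)
  | step_t {n : ℕ} {y : X} : Reach h t x n y → Reach h t x (n + 1) (t y)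

lemma Reach.mono {x y : X} {n n' : ℕ} (hn : n ≤ n') (hr : Reach h t x n y) : Reach h t x n' y := by
  induction n', hn using Nat.le_induction with
  | base => exact hr
  | succ k _ ih => exact ih.stay

lemma Reach.pow {x y : X} {n : ℕ} (hr : Reach h t x n y) (a : ℕ) :
    Reach h t x (n + a) ((h ^ a) y) := by
  induction a with
  | zero => simpa using hr
  | succ a ih =>
    have := ih.step_h
    rw [pow_succ']
    exact this

lemma conj_pow' (hrel : t * h * t⁻¹ = h ^ m) (j : ℕ) : h ^ (m * j) * t = t * h ^ j := by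
  have h1 : t * h ^ j * t⁻¹ = (h ^ m) ^ j := by
    rw [← hrel, conj_pow]
  rw [pow_mul, ← h1]
  group

lemma reach_main (hm : 2 ≤ m) (hrel : t * h * t⁻¹ = h ^ m) (x : X) (k : ℕ) :
    ∀ j < m ^ k, Reach h t x (m * k) ((h ^ j * t ^ k) x) := by
  induction k with
  | zero =>
    intro j hj
    have : j = 0 := by simpa using hj
    subst this
    simpa using Reach.refl
  | succ k ih =>
    intro j hj
    have hm0 : 0 < m := by omega
    have h1 : j / m < m ^ k := by
      rw [Nat.div_lt_iff_lt_mul hm0, ← pow_succ]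
      exact hj
    have h2 := (ih _ h1).step_t.pow (j % m)
    have h3 : (h ^ (j % m)) (t ((h ^ (j / m) * t ^ k) x)) = (h ^ j * t ^ (k + 1)) x := by
      have h4 : h ^ j * t ^ (k + 1) = h ^ (j % m) * (t * (h ^ (j / m) * t ^ k)) := by
        conv_lhs => rw [← Nat.mod_add_div j m, pow_add, pow_succ', mul_assoc, ← mul_assoc _ t,
          conj_pow' hrel]
        simp only [mul_assoc]
      rw [h4]
      rfl
    rw [h3] at h2
    refine h2.mono ?_
    have h4 : j % m < m := Nat.mod_lt _ hm0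
    have h5 : m * (k + 1) = m * k + m := by ring
    omega

/-- the values which can be obtained with `n` steps from the value `v` -/
noncomputable def vals (K : Finset ℝ) (n : ℕ) (v : ℝ) : Finset ℝ :=
  ((({1, -1} : Finset ℤ)) ×ˢ (Fintype.piFinset fun _ : K => Finset.Icc (-(n : ℤ)) n)).image
    fun q => (q.1 : ℝ) * v + ∑ c : K, (q.2 c : ℝ) * (c : ℝ)

lemma card_vals (K : Finset ℝ) (n : ℕ) (v : ℝ) :
    (vals K n v).card ≤ 2 * (2 * n + 1) ^ K.card := by
  unfold vals
  refine Finset.card_image_le.trans ?_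
  rw [Finset.card_product, Fintype.card_piFinset]
  have h1 : (({1, -1} : Finset ℤ)).card = 2 := by decide
  rw [h1]
  simp only [Int.card_Icc, Finset.prod_const, Finset.card_univ, Fintype.card_coe]
  apply le_of_eq
  congr 2
  omega

lemma mem_vals {K : Finset ℝ} {n : ℕ} {v w : ℝ} :
    w ∈ vals K n v ↔ ∃ (σ : ℤ) (e : K → ℤ), (σ = 1 ∨ σ = -1) ∧ (∀ c, |e c| ≤ n) ∧
      w = (σ : ℝ) * v + ∑ c : K, (e c : ℝ) * (c : ℝ) := by
  unfold vals
  rw [Finset.mem_image]
  constructor
  · rintro ⟨⟨σ, e⟩, hq, rfl⟩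
    rw [Finset.mem_product, Fintype.mem_piFinset] at hq
    refine ⟨σ, e, by simpa using hq.1, fun c => ?_, rfl⟩
    have := hq.2 c
    rw [Finset.mem_Icc] at this
    exact abs_le.2 this
  · rintro ⟨σ, e, hσ, he, rfl⟩
    refine ⟨⟨σ, e⟩, ?_, rfl⟩
    rw [Finset.mem_product, Fintype.mem_piFinset]
    refine ⟨by simpa using hσ, fun c => ?_⟩
    rw [Finset.mem_Icc]
    exact abs_le.1 (he c)

lemma vals_step {K : Finset ℝ} {n : ℕ} {v w : ℝ} (hw : w ∈ vals K n v) {σ k : ℝ}
    (hσ : σ = 1 ∨ σ = -1) (hk : k ∈ K) : σ * w + k ∈ vals K (n + 1) v := by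
  classical
  obtain ⟨s, e, hs, he, rfl⟩ := mem_vals.1 hw
  obtain ⟨τ, hτ, hτσ⟩ : ∃ τ : ℤ, (τ = 1 ∨ τ = -1) ∧ (τ : ℝ) = σ := by
    rcases hσ with rfl | rfl
    · exact ⟨1, Or.inl rfl, by norm_num⟩
    · exact ⟨-1, Or.inr rfl, by norm_num⟩
  refine mem_vals.2 ⟨τ * s, fun c => τ * e c + if c = ⟨k, hk⟩ then 1 else 0, ?_, ?_, ?_⟩
  · rcases hτ with rfl | rfl <;> rcases hs with rfl | rfl <;> simp
  · intro c
    refine (abs_add_le _ _).trans ?_
    have h1 : |τ * e c| ≤ n := by
      rw [abs_mul]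
      have : |τ| = 1 := by rcases hτ with rfl | rfl <;> simp
      rw [this, one_mul]
      exact he c
    have h2 : |if c = ⟨k, hk⟩ then (1 : ℤ) else 0| ≤ 1 := by
      split_ifs <;> simp
    push_cast
    linarith
  · push_cast
    have h1 : ∑ c : K, ((τ : ℝ) * (e c : ℝ) + if c = ⟨k, hk⟩ then (1 : ℝ) else 0) * (c : ℝ) =
        (τ : ℝ) * ∑ c : K, (e c : ℝ) * (c : ℝ) + k := by
      simp only [add_mul, Finset.sum_add_distrib, ite_mul, one_mul, zero_mul,
        Finset.sum_ite_eq', Finset.mem_univ, if_true]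
      rw [Finset.mul_sum]
      congr 1
      apply Finset.sum_congr rfl
      intro c _
      ring
    have h2 : ∀ c : K, (((if c = ⟨k, hk⟩ then (1 : ℤ) else 0) : ℤ) : ℝ) =
        if c = ⟨k, hk⟩ then (1 : ℝ) else 0 := by
      intro c
      split_ifs <;> simp
    simp only [hτσ] at h1 ⊢
    rw [h1]
    ring

lemma vals_zero (K : Finset ℝ) (v : ℝ) : v ∈ vals K 0 v :=
  mem_vals.2 ⟨1, fun _ => 0, Or.inl rfl, fun _ => by simp, by simp⟩

lemma vals_mono {K : Finset ℝ} {n : ℕ} {v w : ℝ} (hw : w ∈ vals K n v) :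
    w ∈ vals K (n + 1) v := by
  obtain ⟨s, e, hs, he, rfl⟩ := mem_vals.1 hw
  refine mem_vals.2 ⟨s, e, hs, fun c => (he c).trans (by push_cast; linarith), rfl⟩

/-- exponentials beat polynomials -/
lemma growth (m d : ℕ) (hm : 2 ≤ m) : ∃ k : ℕ, 2 * (2 * (m * k) + 1) ^ d < m ^ k := by
  have h1 : Tendsto (fun k : ℕ => (k : ℝ) ^ d / (m : ℝ) ^ k) atTop (𝓝 0) :=
    tendsto_pow_const_div_const_pow_of_one_lt d (by exact_mod_cast (by omega : 1 < m))
  have hpos : (0 : ℝ) < 1 / (2 * (2 * m + 1) ^ d + 1) := by positivity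
  obtain ⟨k, hk1, hk2⟩ := ((h1.eventually (gt_mem_nhds hpos)).and (eventually_ge_atTop 1)).exists
  refine ⟨k, ?_⟩
  have hmk : (0 : ℝ) < (m : ℝ) ^ k := by positivity
  have hk3 : (1 : ℝ) ≤ k := by exact_mod_cast hk2
  rw [div_lt_div_iff₀ hmk (by positivity), one_mul] at hk1
  have h2 : (2 * (2 * ((m : ℝ) * k) + 1) ^ d : ℝ) ≤ 2 * ((2 * m + 1) * k) ^ d := by
    gcongr
    nlinarith
  have h3 : (2 * ((2 * m + 1) * k) ^ d : ℝ) < (m : ℝ) ^ k := by
    rw [mul_pow]
    have h4 : (0 : ℝ) < (k : ℝ) ^ d := by positivity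
    nlinarith
  exact_mod_cast h2.trans_lt h3

theorem main : R_C := by
  classical
  intro X h t m hm hrel F C hC hh ht
  set K : Finset ℝ := C.image Prod.snd with hK
  obtain ⟨k, hk⟩ := growth m K.card hm
  refine ⟨m ^ k, fun z => ?_⟩
  set x : X := (t⁻¹ ^ k) z with hx
  have hzx : (t ^ k) x = z := by
    rw [hx, inv_pow]
    exact (t ^ k).apply_symm_apply z
  have hval : ∀ n y, Reach h t x n y → F y ∈ vals K n (F x) := by
    intro n y hr
    induction hr with
    | refl => exact vals_zero K _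
    | stay _ ih => exact vals_mono ih
    | step_h _ ih =>
      rename_i n y _
      obtain ⟨c, hc, he⟩ := hh y
      rw [he]
      exact vals_step ih (hC c hc) (Finset.mem_image_of_mem _ hc)
    | step_t _ ih =>
      rename_i n y _
      obtain ⟨c, hc, he⟩ := ht y
      rw [he]
      exact vals_step ih (hC c hc) (Finset.mem_image_of_mem _ hc)
  have hmaps : ∀ j ∈ Finset.range (m ^ k), F ((h ^ j) z) ∈ vals K (m * k) (F x) := by
    intro j hj
    have h1 := hval _ _ (reach_main hm hrel x k j (Finset.mem_range.1 hj))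
    have h2 : (h ^ j * t ^ k) x = (h ^ j) z := by
      rw [Equiv.Perm.mul_apply, hzx]
    rwa [h2] at h1
  have hcard : (vals K (m * k) (F x)).card < (Finset.range (m ^ k)).card := by
    rw [Finset.card_range]
    exact (card_vals K (m * k) (F x)).trans_lt hk
  obtain ⟨i, hi, j, hj, hij, heq⟩ := Finset.exists_ne_map_eq_of_card_lt_of_maps_to hcard hmaps
  have key : ∀ i j : ℕ, i < m ^ k → j < m ^ k → i < j → F ((h ^ i) z) = F ((h ^ j) z) →
      ∃ j d : ℕ, j < m ^ k ∧ 0 < d ∧ d ≤ m ^ k ∧ F ((h ^ d) ((h ^ j) z)) = F ((h ^ j) z) := by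
    intro i j hi hj hij heq
    refine ⟨i, j - i, hi, by omega, by omega, ?_⟩
    rw [heq, ← Equiv.Perm.mul_apply, ← pow_add]
    congr 3
    omega
  rcases lt_or_gt_of_ne hij with h1 | h1
  · exact key i j (Finset.mem_range.1 hi) (Finset.mem_range.1 hj) h1 heq
  · exact key j i (Finset.mem_range.1 hj) (Finset.mem_range.1 hi) h1 heq.symm

end Pool.Agent.H86.BT.C
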