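import Pool.Agent.H86.BT.Defs

set_option autoImplicit false

open Set Filter Topology

namespace Pool.Agent.H86.BT.E

/-- the inclusion of the line -/
abbrev c : ℝ → S := fun y => (y : S)

lemma c_inj : Function.Injective c := OnePoint.coe_injective

lemma c_open : IsOpenEmbedding c := OnePoint.isOpenEmbedding_coe

lemma e0_mem {A : Set S} : A ∈ e0 ↔ ∃ r > 0, c '' Ioo 0 r ⊆ A := by
  unfold e0
  rw [mem_map, mem_nhdsGT_iff_exists_Ioo_subset]
  constructor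
  · rintro ⟨r, hr, h⟩
    refine ⟨r, hr, ?_⟩
    rintro _ ⟨x, hx, rfl⟩
    exact h hx
  · rintro ⟨r, hr, h⟩
    exact ⟨r, hr, fun x hx => h ⟨x, hx, rfl⟩⟩

lemma e0_neBot : e0.NeBot := by
  unfold e0
  infer_instance

lemma e0_le : e0 ≤ 𝓝 ((0 : ℝ) : S) := by
  unfold e0
  have h1 : Tendsto c (𝓝[>] (0 : ℝ)) (𝓝 ((0 : ℝ) : S)) :=
    (OnePoint.continuous_coe.tendsto (0 : ℝ)).mono_left nhdsWithin_le_nhds
  exact h1

/-- avoiding a finite set -/
lemma avoid (κ : HS) {A : Set S} (hA : A.Finite) : ∃ r > 0, ∀ x ∈ Ioo (0 : ℝ) r, κ (x : S) ∉ A := by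
  have hfin : {x : ℝ | κ (x : S) ∈ A}.Finite :=
    hA.preimage (f := fun x : ℝ => κ (x : S)) (κ.injective.comp c_inj).injOn
  have h1 : ({x : ℝ | κ (x : S) ∈ A} \ {0})ᶜ ∈ 𝓝 (0 : ℝ) :=
    (hfin.subset sdiff_subset).isClosed.isOpen_compl.mem_nhds (by simp)
  obtain ⟨r, hr, h2⟩ := Metric.mem_nhds_iff.1 h1
  refine ⟨r, hr, fun x hx hxA => ?_⟩
  have h3 : x ∈ Metric.ball (0 : ℝ) r := by
    rw [Metric.mem_ball, Real.dist_eq, sub_zero, abs_of_pos hx.1]
    exact hx.2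
  exact h2 h3 ⟨hxA, hx.1.ne'⟩

lemma compl_mem (f : Filter S) (hf : IsEnd f) {A : Set S} (hA : A.Finite) : Aᶜ ∈ f := by
  obtain ⟨κ, rfl⟩ := hf
  obtain ⟨r, hr, h⟩ := avoid κ hA
  rw [mem_map, e0_mem]
  refine ⟨r, hr, ?_⟩
  rintro _ ⟨x, hx, rfl⟩
  exact h x hx

theorem e3 : R_E3 := by
  classical
  constructor
  · rintro P g ⟨F, hF⟩ f ⟨κ, rfl⟩
    have hfin : (c '' (F : Set ℝ) ∪ {OnePoint.infty}).Finite :=
      (F.finite_toSet.image _).union (finite_singleton _)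
    obtain ⟨r, hr, hav⟩ := avoid κ hfin
    set J : Set ℝ := c ⁻¹' (κ '' (c '' Ioo 0 r)) with hJ
    have himg : c '' J = κ '' (c '' Ioo 0 r) := by
      rw [hJ, image_preimage_eq_iff]
      rintro _ ⟨_, ⟨x, hx, rfl⟩, rfl⟩
      have h1 : κ (x : S) ≠ OnePoint.infty := fun h => hav x hx (Or.inr h)
      obtain ⟨y, hy⟩ := OnePoint.ne_infty_iff_exists.1 h1
      exact ⟨y, hy⟩
    have hconn : IsPreconnected (κ '' (c '' Ioo 0 r)) :=
      (isPreconnected_Ioo.image c OnePoint.continuous_coe.continuousOn).image κ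
        κ.continuous.continuousOn
    rw [← himg, c_open.isInducing.isPreconnected_image] at hconn
    obtain ⟨l, hl, hgl⟩ := hF J hconn.ordConnected (by
      rintro x hx ⟨_, ⟨y, hy, rfl⟩, hxy⟩
      exact hav y hy (Or.inl ⟨x, hx, hxy.symm⟩))
    refine ⟨l, hl, ?_⟩
    rw [eventually_map, Filter.eventually_iff, e0_mem]
    refine ⟨r, hr, ?_⟩
    rintro _ ⟨x, hx, rfl⟩
    have h1 : κ (x : S) ∈ c '' J := by
      rw [himg]
      exact ⟨_, ⟨x, hx, rfl⟩, rfl⟩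
    obtain ⟨y, hy, hyx⟩ := h1
    change g (κ (x : S)) = l (κ (x : S))
    rw [← hyx]
    exact hgl y hy
  · intro f hf
    refine ⟨?_, ?_, fun A hA => compl_mem f hf hA⟩
    · obtain ⟨κ, rfl⟩ := hf
      have := e0_neBot
      infer_instance
    · obtain ⟨κ, rfl⟩ := hf
      refine ⟨κ ((0 : ℝ) : S), ?_⟩
      exact (κ.continuous.tendsto _).mono_left e0_le

/-- dichotomy -/
lemma dich (κ : HS) (h0 : κ ((0 : ℝ) : S) = ((0 : ℝ) : S)) :
    map κ e0 ≤ e0 ∨ c '' Iio 0 ∈ map κ e0 := by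
  -- a small interval around `0`
  have hnhds : c '' Ioo (-1 : ℝ) 1 ∈ 𝓝 (κ ((0 : ℝ) : S)) := by
    rw [h0]
    exact c_open.image_mem_nhds.2 (Ioo_mem_nhds (by norm_num) (by norm_num))
  have hpre : c ⁻¹' (κ ⁻¹' (c '' Ioo (-1 : ℝ) 1)) ∈ 𝓝 (0 : ℝ) :=
    (κ.continuous.comp OnePoint.continuous_coe).continuousAt.preimage_mem_nhds hnhds
  obtain ⟨r, hr, hr2⟩ := Metric.mem_nhds_iff.1 hpre
  have hsub : ∀ x ∈ Ioo (0 : ℝ) r, κ (x : S) ∈ c '' Ioo (-1 : ℝ) 1 := by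
    intro x hx
    apply hr2
    rw [Metric.mem_ball, Real.dist_eq, sub_zero, abs_of_pos hx.1]
    exact hx.2
  set C : Set S := κ '' (c '' Ioo 0 r) with hC
  have hconn : IsPreconnected C :=
    (isPreconnected_Ioo.image c OnePoint.continuous_coe.continuousOn).image κ
      κ.continuous.continuousOn
  have hcov : C ⊆ c '' Iio 0 ∪ c '' Ioi 0 := by
    rintro _ ⟨_, ⟨x, hx, rfl⟩, rfl⟩
    obtain ⟨y, hy, hyx⟩ := hsub x hx
    rcases lt_trichotomy y 0 with h | h | h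
    · exact Or.inl ⟨y, h, hyx⟩
    · exfalso
      have h1 : κ (x : S) = κ ((0 : ℝ) : S) := by
        rw [h0, ← hyx, h]
      have h2 : x = 0 := c_inj (κ.injective h1)
      exact hx.1.ne' h2
    · exact Or.inr ⟨y, h, hyx⟩
  have ho1 : IsOpen (c '' Iio 0) := c_open.isOpenMap _ isOpen_Iio
  have ho2 : IsOpen (c '' Ioi 0) := c_open.isOpenMap _ isOpen_Ioi
  have hdis : Disjoint (c '' Iio (0 : ℝ)) (c '' Ioi 0) := by
    rw [disjoint_image_iff c_inj, Set.disjoint_left]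
    intro x hx hx'
    exact absurd (mem_Iio.1 hx) (not_lt.2 (mem_Ioi.1 hx').le)
  have hCmem : ∀ A, C ⊆ A → A ∈ map κ e0 := by
    intro A hA
    rw [mem_map, e0_mem]
    refine ⟨r, hr, ?_⟩
    intro s hs
    exact hA ⟨s, hs, rfl⟩
  rcases hconn.subset_or_subset ho1 ho2 hdis hcov with h | h
  · exact Or.inr (hCmem _ h)
  · left
    have h1 : map κ e0 ≤ 𝓝 ((0 : ℝ) : S) := by
      have := (κ.continuous.tendsto ((0 : ℝ) : S)).mono_left e0_le
      rw [h0] at this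
      exact this
    intro A hA
    obtain ⟨ρ, hρ, hA⟩ := e0_mem.1 hA
    have h2 : c '' Ioo (-ρ) ρ ∈ map κ e0 :=
      h1 (c_open.image_mem_nhds.2 (Ioo_mem_nhds (by linarith) hρ))
    filter_upwards [h2, hCmem _ h] with s hs1 hs2
    obtain ⟨x, hx, rfl⟩ := hs1
    obtain ⟨y, hy, hyx⟩ := hs2
    have : y = x := c_inj hyx
    subst this
    exact hA ⟨y, ⟨hy, hx.2⟩, rfl⟩

lemma map_map_symm (κ : HS) (f : Filter S) : map (κ⁻¹ : HS) (map κ f) = f := by
  rw [map_map]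
  have : ((κ⁻¹ : HS) : S → S) ∘ (κ : S → S) = id := by
    funext s
    exact κ.symm_apply_apply s
  rw [this, map_id]

lemma map_mul (κ κ' : HS) (f : Filter S) : map (κ * κ' : HS) f = map κ (map κ' f) := by
  rw [map_map]
  rfl

lemma key (κ : HS) (hd : ¬ Disjoint (map κ e0) e0) : map κ e0 ≤ e0 := by
  have h0 : κ ((0 : ℝ) : S) = ((0 : ℝ) : S) := by
    by_contra hne
    apply hd
    have h1 : map κ e0 ≤ 𝓝 (κ ((0 : ℝ) : S)) := (κ.continuous.tendsto _).mono_left e0_le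
    exact (disjoint_nhds_nhds.2 hne).mono h1 e0_le
  rcases dich κ h0 with h | h
  · exact h
  · exfalso
    apply hd
    refine Filter.disjoint_of_disjoint_of_mem ?_ h (e0_mem.2 ⟨1, one_pos, Subset.rfl⟩)
    rw [disjoint_image_iff c_inj, Set.disjoint_left]
    intro x hx hx'
    exact absurd (mem_Iio.1 hx) (not_lt.2 hx'.1.le)

theorem e2 : R_E2 := by
  rintro _ _ ⟨κ, rfl⟩ ⟨κ', rfl⟩ hne
  by_contra hd
  apply hne
  -- reduce to `κ' = 1`
  have hd' : ¬ Disjoint (map (κ'⁻¹ * κ : HS) e0) e0 := by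
    intro h
    apply hd
    have h1 := (disjoint_map κ'.injective).2 h
    rw [map_mul, map_map] at h1
    have h2 : (κ' : S → S) ∘ ((κ'⁻¹ : HS) : S → S) = id := by
      funext s
      exact κ'.apply_symm_apply s
    rw [h2, map_id] at h1
    exact h1
  have h1 := key _ hd'
  have hd2 : ¬ Disjoint (map ((κ'⁻¹ * κ : HS)⁻¹ : HS) e0) e0 := by
    intro h
    apply hd'
    have h3 := (disjoint_map (κ'⁻¹ * κ : HS).injective).2 h
    rw [map_map] at h3
    have h2 : ((κ'⁻¹ * κ : HS) : S → S) ∘ (((κ'⁻¹ * κ : HS)⁻¹ : HS) : S → S) = id := by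
      funext s
      exact (κ'⁻¹ * κ : HS).apply_symm_apply s
    rw [h2, map_id] at h3
    exact h3.symm
  have h2 := key _ hd2
  have h3 : e0 ≤ map (κ'⁻¹ * κ : HS) e0 := by
    have h4 := map_mono (m := (κ'⁻¹ * κ : HS)) h2
    rw [map_map] at h4
    have h5 : ((κ'⁻¹ * κ : HS) : S → S) ∘ (((κ'⁻¹ * κ : HS)⁻¹ : HS) : S → S) = id := by
      funext s
      exact (κ'⁻¹ * κ : HS).apply_symm_apply s
    rw [h5, map_id] at h4
    exact h4
  have h4 : map (κ'⁻¹ * κ : HS) e0 = e0 := le_antisymm h1 h3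
  rw [map_mul] at h4
  calc map κ e0 = map κ' (map (κ'⁻¹ : HS) (map κ e0)) := by
        rw [map_map (m := ((κ'⁻¹ : HS) : S → S))]
        have h5 : (κ' : S → S) ∘ ((κ'⁻¹ : HS) : S → S) = id := by
          funext s
          exact κ'.apply_symm_apply s
        rw [h5, map_id]
    _ = map κ' e0 := by rw [h4]

end Pool.Agent.H86.BT.E
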