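import Pool.Agent.H86.BT.Defs

set_option autoImplicit false

open Set Filter Topology

namespace Pool.Agent.H86.BT.I

/-- the inclusion of the line -/
abbrev c : ℝ → S := fun y => (y : S)

/-- the inversion `x ↦ 1 / x` -/
noncomputable def iv : S → S
  | some x => if x = 0 then OnePoint.infty else ((x⁻¹ : ℝ) : S)
  | none => ((0 : ℝ) : S)

lemma iv_infty : iv OnePoint.infty = ((0 : ℝ) : S) := rfl

lemma iv_zero : iv ((0 : ℝ) : S) = OnePoint.infty := if_pos rfl

lemma iv_coe {x : ℝ} (hx : x ≠ 0) : iv (x : S) = ((x⁻¹ : ℝ) : S) := if_neg hx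

lemma iv_iv (s : S) : iv (iv s) = s := by
  induction s using OnePoint.rec with
  | infty => rw [iv_infty, iv_zero]
  | coe x =>
    by_cases hx : x = 0
    · rw [hx, iv_zero, iv_infty]
    · rw [iv_coe hx, iv_coe (inv_ne_zero hx), inv_inv]

lemma coclosed : coclosedCompact ℝ = Bornology.cobounded ℝ := by
  rw [coclosedCompact_eq_cocompact, Metric.cobounded_eq_cocompact]

lemma tendsto_infty {α : Type*} {l : Filter α} {f : α → ℝ}
    (h : Tendsto f l (Bornology.cobounded ℝ)) : Tendsto (fun a => (f a : S)) l (𝓝 OnePoint.infty) := by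
  have h1 : Tendsto c (Bornology.cobounded ℝ) (𝓝 OnePoint.infty) := by
    rw [OnePoint.nhds_infty_eq, ← coclosed]
    exact le_sup_left
  exact h1.comp h

lemma iv_cont : Continuous iv := by
  rw [continuous_iff_continuousAt]
  intro s
  induction s using OnePoint.rec with
  | infty =>
    rw [OnePoint.continuousAt_infty', coclosed, iv_infty]
    have h1 : Tendsto (fun x : ℝ => ((x⁻¹ : ℝ) : S)) (Bornology.cobounded ℝ) (𝓝 ((0 : ℝ) : S)) :=
      (OnePoint.continuous_coe.tendsto (0 : ℝ)).comp tendsto_inv₀_cobounded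
    refine h1.congr' ?_
    have h2 : ({0}ᶜ : Set ℝ) ∈ Bornology.cobounded ℝ :=
      Bornology.isBounded_def.1 (Bornology.isBounded_singleton (x := (0 : ℝ)))
    filter_upwards [h2] with x hx
    exact (iv_coe hx).symm
  | coe x =>
    rw [OnePoint.continuousAt_coe]
    by_cases hx : x = 0
    · subst hx
      rw [ContinuousAt, Function.comp_apply, iv_zero, ← pure_sup_nhdsNE, tendsto_sup]
      constructor
      · rw [tendsto_pure_left]
        intro A hA
        rw [Function.comp_apply, iv_zero]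
        exact mem_of_mem_nhds hA
      · refine (tendsto_infty tendsto_inv₀_nhdsNE_zero).congr' ?_
        filter_upwards [self_mem_nhdsWithin] with y hy
        exact (iv_coe hy).symm
    · have h1 : ContinuousAt (fun y : ℝ => ((y⁻¹ : ℝ) : S)) x :=
        OnePoint.continuous_coe.continuousAt.comp (continuousAt_inv₀ hx)
      refine h1.congr ?_
      filter_upwards [isOpen_ne.mem_nhds hx] with y hy
      exact (iv_coe hy).symm

/-- the inversion as a homeomorphism -/
noncomputable def ivH : HS where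
  toFun := iv
  invFun := iv
  left_inv := iv_iv
  right_inv := iv_iv
  continuous_toFun := iv_cont
  continuous_invFun := iv_cont

/-- homeomorphisms of the line -/
noncomputable def lift (h : ℝ ≃ₜ ℝ) : HS := h.onePointCongr

lemma lift_coe (h : ℝ ≃ₜ ℝ) (x : ℝ) : lift h (x : S) = ((h x : ℝ) : S) := rfl

lemma lift_infty (h : ℝ ≃ₜ ℝ) : lift h OnePoint.infty = OnePoint.infty := rfl

lemma map_lift (h : ℝ ≃ₜ ℝ) (f : Filter ℝ) : map (lift h) (map c f) = map c (map h f) := by
  rw [map_map, map_map]
  rfl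

theorem e1 : R_E1 := by
  have hR : ∀ x : ℝ, IsEnd (map c (𝓝[>] x)) := by
    intro x
    refine ⟨lift (Homeomorph.addLeft x), ?_⟩
    unfold e0
    rw [map_lift, (Homeomorph.addLeft x).isEmbedding.map_nhdsWithin_eq]
    simp
  have hL : ∀ x : ℝ, IsEnd (map c (𝓝[<] x)) := by
    intro x
    refine ⟨lift (Homeomorph.subLeft x), ?_⟩
    unfold e0
    rw [map_lift, (Homeomorph.subLeft x).isEmbedding.map_nhdsWithin_eq]
    simp
  have hT : map c atTop = map ivH e0 := by
    unfold e0
    rw [map_map, ← inv_nhdsGT_zero (𝕜 := ℝ)]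
    change map c (map Inv.inv (𝓝[>] (0 : ℝ))) = _
    rw [map_map]
    apply Filter.map_congr
    filter_upwards [self_mem_nhdsWithin] with y hy
    exact (iv_coe (ne_of_gt hy)).symm
  refine ⟨fun x => ⟨hR x, hL x⟩, ?_, ⟨ivH, hT⟩⟩
  refine ⟨lift (Homeomorph.neg ℝ) * ivH, ?_⟩
  have h1 : ∀ f : Filter S, map (lift (Homeomorph.neg ℝ) * ivH : HS) f =
      map (lift (Homeomorph.neg ℝ)) (map ivH f) := by
    intro f
    rw [map_map]
    rfl
  rw [h1, ← hT, map_lift]
  congr 1
  exact (map_neg_atTop).symm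

end Pool.Agent.H86.BT.I
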