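import Pool.Agent.H86.BT.Defs

set_option autoImplicit false

open Set Filter Topology

namespace Pool.Agent.H86.BT.O

theorem o1 : R_O1 := by
  classical
  intro l J hJ hne
  have hex : ∀ x : ℝ, ∃ y : ℝ, x ∈ J → l (x : S) = (y : S) := by
    intro x
    by_cases hx : x ∈ J
    · obtain ⟨y, hy⟩ := OnePoint.ne_infty_iff_exists.1 (hne x hx)
      exact ⟨y, fun _ => hy.symm⟩
    · exact ⟨0, fun h => absurd h hx⟩
  choose φ hφ using hex
  have hcont : ContinuousOn φ J := by
    rw [OnePoint.isOpenEmbedding_coe.isInducing.continuousOn_iff]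
    have h1 : ContinuousOn (fun x : ℝ => l (x : S)) J :=
      (l.continuous.comp OnePoint.continuous_coe).continuousOn
    refine h1.congr fun x hx => ?_
    exact (hφ x hx).symm
  have hinj : InjOn φ J := by
    intro x hx y hy hxy
    have h1 : l (x : S) = l (y : S) := by rw [hφ x hx, hφ y hy, hxy]
    exact OnePoint.coe_injective (l.injective h1)
  refine ⟨φ, hφ, hcont, ?_⟩
  by_contra hcon
  push Not at hcon
  obtain ⟨h1, h2⟩ := hcon
  unfold StrictMonoOn at h1
  unfold StrictAntiOn at h2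
  push Not at h1 h2
  obtain ⟨a, ha, b, hb, hab, h3⟩ := h1
  obtain ⟨a', ha', b', hb', hab', h4⟩ := h2
  have hI : Icc (min a a') (max b b') ⊆ J := by
    apply hJ.out
    · rcases min_choice a a' with h | h <;> rw [h] <;> assumption
    · rcases max_choice b b' with h | h <;> rw [h] <;> assumption
  have hle : min a a' ≤ max b b' := (min_le_left _ _).trans (hab.le.trans (le_max_left _ _))
  have m1 : a ∈ Icc (min a a') (max b b') := ⟨min_le_left _ _, hab.le.trans (le_max_left _ _)⟩
  have m2 : b ∈ Icc (min a a') (max b b') := ⟨(min_le_left _ _).trans hab.le, le_max_left _ _⟩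
  have m3 : a' ∈ Icc (min a a') (max b b') := ⟨min_le_right _ _, hab'.le.trans (le_max_right _ _)⟩
  have m4 : b' ∈ Icc (min a a') (max b b') := ⟨(min_le_right _ _).trans hab'.le, le_max_right _ _⟩
  rcases ContinuousOn.strictMonoOn_of_injOn_Icc' hle (hcont.mono hI) (hinj.mono hI) with h | h
  · exact absurd (h m1 m2 hab) (not_lt.2 h3)
  · exact absurd (h m3 m4 hab') (not_lt.2 h4)

theorem o2 : R_O2 := by
  classical
  rintro P g ⟨F, hF⟩
  set E : Set S := {OnePoint.infty} ∪ (fun x : ℝ => (x : S)) '' (F : Set ℝ) ∪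
    g ⁻¹' {OnePoint.infty} with hE
  have hEfin : E.Finite := by
    refine ((finite_singleton _).union (F.finite_toSet.image _)).union ?_
    exact (finite_singleton _).preimage g.injective.injOn
  have hE'fin : {x : ℝ | (x : S) ∈ E}.Finite := hEfin.preimage OnePoint.coe_injective.injOn
  set F' : Finset ℝ := hE'fin.toFinset with hF'
  have hmem : ∀ x : ℝ, x ∈ F' ↔ (x : S) ∈ E := fun x => by rw [hF', Finite.mem_toFinset]; rfl
  let J : Fin (F'.card + 1) → Set ℝ := fun i => {x | x ∉ F' ∧ (F'.filter (· < x)).card = i}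
  have hJ : ∀ i, (J i).OrdConnected := by
    intro i
    refine ⟨fun x hx y hy z hz => ?_⟩
    have h1 : (F'.filter (· < x)) ⊆ (F'.filter (· < z)) :=
      Finset.monotone_filter_right _ fun w _ hw => hw.trans_le hz.1
    have h2 : (F'.filter (· < z)) ⊆ (F'.filter (· < y)) :=
      Finset.monotone_filter_right _ fun w _ hw => hw.trans_le hz.2
    have h3 := Finset.card_le_card h1
    have h4 := Finset.card_le_card h2
    have h5 := hx.2
    have h6 := hy.2
    refine ⟨fun hzF => ?_, by omega⟩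
    rcases hz.2.eq_or_lt with h7 | h7
    · exact hy.1 (h7 ▸ hzF)
    · have h8 : (F'.filter (· < z)) ⊂ (F'.filter (· < y)) := by
        refine Finset.ssubset_iff_subset_ne.2 ⟨h2, fun h => ?_⟩
        have h9 : z ∈ F'.filter (· < y) := Finset.mem_filter.2 ⟨hzF, h7⟩
        rw [← h] at h9
        exact absurd (Finset.mem_filter.1 h9).2 (lt_irrefl z)
      have := Finset.card_lt_card h8
      omega
  have hl : ∀ i, ∃ l ∈ P, ∀ x ∈ J i, g (x : S) = l (x : S) := by
    intro i
    refine hF (J i) (hJ i) fun x hx hxJ => hxJ.1 ?_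
    rw [hmem]
    exact Or.inl (Or.inr ⟨x, hx, rfl⟩)
  choose l hlP hgl using hl
  refine ⟨E, F'.card + 1, J, l, hEfin, ?_, ?_⟩
  · intro s
    by_cases hs : s ∈ E
    · exact Or.inl hs
    · right
      induction s using OnePoint.rec with
      | infty => exact absurd (Or.inl (Or.inl rfl)) hs
      | coe x =>
        refine ⟨⟨(F'.filter (· < x)).card, ?_⟩, x, ⟨?_, rfl⟩, rfl⟩
        · exact Nat.lt_succ_of_le (Finset.card_le_card (Finset.filter_subset _ _))
        · rw [hmem]
          exact hs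
  · intro i
    refine ⟨hJ i, hlP i, fun x hx => ⟨hgl i x hx, ?_⟩⟩
    rw [← hgl i x hx]
    intro h
    apply hx.1
    rw [hmem]
    exact Or.inr h

lemma Ico_eq' {μ : Set S → ℝ} (hadd : ∀ A B, Disjoint A B → μ (A ∪ B) = μ A + μ B)
    {x y : ℝ} (hxy : x ≤ y) :
    μ ((fun z : ℝ => (z : S)) '' Ico x y) = Fd μ (y : S) - Fd μ (x : S) := by
  have h1 : (fun z : ℝ => (z : S)) '' Iio y =
      (fun z : ℝ => (z : S)) '' Iio x ∪ (fun z : ℝ => (z : S)) '' Ico x y := by
    rw [← image_union, Iio_union_Ico_eq_Iio hxy]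
  have h2 : Disjoint ((fun z : ℝ => (z : S)) '' Iio x) ((fun z : ℝ => (z : S)) '' Ico x y) := by
    rw [disjoint_image_iff OnePoint.coe_injective, Set.disjoint_left]
    intro z hz hz'
    exact absurd hz (not_lt.2 hz'.1)
  change _ = μ ((fun z : ℝ => (z : S)) '' Iio y) - μ ((fun z : ℝ => (z : S)) '' Iio x)
  rw [h1, hadd _ _ h2]
  ring

lemma Ioc_eq' {μ : Set S → ℝ} (hadd : ∀ A B, Disjoint A B → μ (A ∪ B) = μ A + μ B)
    (hs : ∀ x, μ {x} = 0) {x y : ℝ} (hxy : x < y) :
    μ ((fun z : ℝ => (z : S)) '' Ioc x y) = Fd μ (y : S) - Fd μ (x : S) := by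
  rw [← Ico_eq' hadd hxy.le]
  have h1 : (fun z : ℝ => (z : S)) '' Ioc x y =
      (fun z : ℝ => (z : S)) '' Ioo x y ∪ {(y : S)} := by
    rw [← Ioo_union_right hxy, image_union, image_singleton]
  have h2 : (fun z : ℝ => (z : S)) '' Ico x y =
      (fun z : ℝ => (z : S)) '' Ioo x y ∪ {(x : S)} := by
    rw [← Ioo_union_left hxy, image_union, image_singleton]
  rw [h1, h2, hadd, hadd, hs, hs]
  · rw [disjoint_singleton_right]
    rintro ⟨z, hz, hzx⟩
    exact absurd (OnePoint.coe_injective hzx) hz.1.ne'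
  · rw [disjoint_singleton_right]
    rintro ⟨z, hz, hzx⟩
    exact absurd (OnePoint.coe_injective hzx) hz.2.ne

theorem o3 : R_O3 := by
  intro μ h0 hadd hs g hinv J φ hJ hφ hcont
  have himg : ∀ A, μ (g '' A) = μ A := by
    intro A
    rw [← hinv (g '' A), preimage_image_eq _ g.injective]
  have hcomp : ∀ A ⊆ J, g '' ((fun z : ℝ => (z : S)) '' A) = (fun z : ℝ => (z : S)) '' (φ '' A) := by
    intro A hA
    rw [image_image, image_image]
    exact image_congr fun x hx => hφ x (hA hx)
  constructor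
  · intro hm
    have key : ∀ x ∈ J, ∀ y ∈ J, x ≤ y →
        Fd μ (φ y : S) - Fd μ (φ x : S) = Fd μ (y : S) - Fd μ (x : S) := by
      intro x hx y hy hxy
      have hsub : Icc x y ⊆ J := hJ.out hx hy
      have h1 := ContinuousOn.image_Ico_of_strictMonoOn hxy (hcont.mono hsub) (hm.mono hsub)
      have h2 := himg ((fun z : ℝ => (z : S)) '' Ico x y)
      rw [hcomp _ (Ico_subset_Icc_self.trans hsub), h1, Ico_eq' hadd hxy,
        Ico_eq' hadd (hm.monotoneOn hx hy hxy)] at h2
      exact h2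
    rcases eq_empty_or_nonempty J with h1 | ⟨a, ha⟩
    · exact ⟨0, fun x hx => by rw [h1] at hx; exact absurd hx (notMem_empty x)⟩
    · refine ⟨Fd μ (φ a : S) - Fd μ (a : S), fun x hx => ?_⟩
      rcases le_total a x with h2 | h2
      · linarith [key a ha x hx h2]
      · linarith [key x hx a ha h2]
  · intro hm
    have key : ∀ x ∈ J, ∀ y ∈ J, x < y →
        Fd μ (φ x : S) - Fd μ (φ y : S) = Fd μ (y : S) - Fd μ (x : S) := by
      intro x hx y hy hxy
      have hsub : Icc x y ⊆ J := hJ.out hx hy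
      have h1 := ContinuousOn.image_Ico_of_strictAntiOn hxy.le (hcont.mono hsub) (hm.mono hsub)
      have h2 := himg ((fun z : ℝ => (z : S)) '' Ico x y)
      rw [hcomp _ (Ico_subset_Icc_self.trans hsub), h1, Ico_eq' hadd hxy.le,
        Ioc_eq' hadd hs (hm hx hy hxy)] at h2
      exact h2
    rcases eq_empty_or_nonempty J with h1 | ⟨a, ha⟩
    · exact ⟨0, fun x hx => by rw [h1] at hx; exact absurd hx (notMem_empty x)⟩
    · refine ⟨Fd μ (φ a : S) + Fd μ (a : S), fun x hx => ?_⟩
      rcases lt_trichotomy a x with h2 | h2 | h2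
      · linarith [key a ha x hx h2]
      · rw [h2]; ring
      · linarith [key x hx a ha h2]

end Pool.Agent.H86.BT.O
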