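import Pool.Agent.H86.BT.PN
import Pool.Agent.H86.BT.PO
import Pool.Agent.H86.BT.PE
import Pool.Agent.H86.BT.PI
import Pool.Agent.H86.BT.PC

set_option autoImplicit false

open Set Filter Topology

namespace Pool.Agent.H86.BT.A

universe v

open Pool.Agent.H86.BT.N (FA)

lemma consts {μ : Set S → ℝ} (h : FA μ) {P : Set HS} {g : Equiv.Perm S} (hg : PW P g)
    (hinv : ∀ A, μ (g ⁻¹' A) = μ A) :
    ∃ C : Finset (ℝ × ℝ), (∀ c ∈ C, c.1 = 1 ∨ c.1 = -1) ∧
      ∀ s, ∃ c ∈ C, Fd μ (g s) = c.1 * Fd μ s + c.2 := by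
  classical
  obtain ⟨E, n, J, l, hE, hcov, hpc⟩ := O.o2 P g hg
  have hpiece : ∀ i, ∃ c : ℝ × ℝ, (c.1 = 1 ∨ c.1 = -1) ∧
      ∀ x ∈ J i, Fd μ (g (x : S)) = c.1 * Fd μ (x : S) + c.2 := by
    intro i
    obtain ⟨hJ, _, hgl⟩ := hpc i
    obtain ⟨φ, hφ, hcont, hmono⟩ := O.o1 (l i) (J i) hJ (fun x hx => (hgl x hx).2)
    have hgφ : ∀ x ∈ J i, g (x : S) = (φ x : S) := fun x hx => by
      rw [(hgl x hx).1, hφ x hx]
    obtain ⟨hup, hdn⟩ := O.o3 μ h.nonneg h.add h.single g hinv (J i) φ hJ hgφ hcont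
    rcases hmono with hm | hm
    · obtain ⟨k, hk⟩ := hup hm
      exact ⟨(1, k), Or.inl rfl, fun x hx => by rw [hgφ x hx, hk x hx]; ring⟩
    · obtain ⟨k, hk⟩ := hdn hm
      exact ⟨(-1, k), Or.inr rfl, fun x hx => by rw [hgφ x hx, hk x hx]; ring⟩
  choose c hc1 hc2 using hpiece
  refine ⟨hE.toFinset.image (fun s => ((1 : ℝ), Fd μ (g s) - Fd μ s)) ∪
    Finset.univ.image c, ?_, ?_⟩
  · intro x hx
    rw [Finset.mem_union, Finset.mem_image, Finset.mem_image] at hx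
    rcases hx with ⟨s, _, rfl⟩ | ⟨i, _, rfl⟩
    · exact Or.inl rfl
    · exact hc1 i
  · intro s
    rcases hcov s with h1 | ⟨i, x, hx, rfl⟩
    · refine ⟨(1, Fd μ (g s) - Fd μ s), Finset.mem_union_left _ (Finset.mem_image.2
        ⟨s, hE.mem_toFinset.2 h1, rfl⟩), by ring⟩
    · exact ⟨c i, Finset.mem_union_right _ (Finset.mem_image_of_mem _ (Finset.mem_univ i)),
        hc2 i x hx⟩

lemma inv_pow_of {μ : Set S → ℝ} {g : Equiv.Perm S} (hinv : ∀ A, μ (g ⁻¹' A) = μ A) (n : ℕ) :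
    ∀ A, μ ((g ^ n : Equiv.Perm S) ⁻¹' A) = μ A := by
  induction n with
  | zero => intro A; rfl
  | succ n ih =>
    intro A
    have h1 : (g ^ (n + 1) : Equiv.Perm S) ⁻¹' A = (g ^ n : Equiv.Perm S) ⁻¹' (g ⁻¹' A) := by
      rw [pow_succ']
      rfl
    rw [h1, ih, hinv]

/-- existence of an atom -/
lemma exists_atom {L : Subgroup HS} (hL : FF (L : Set HS)) {h t : Equiv.Perm S}
    (hh : ∀ n : ℕ, PW (L : Set HS) (h ^ n : Equiv.Perm S)) (ht : PW (L : Set HS) t) {m : ℕ}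
    (hm : 2 ≤ m) (hrel : t * h * t⁻¹ = h ^ m) (M : Mean h t) :
    ∃ f, IsEnd f ∧ ∃ δ : ℝ, 0 < δ ∧ ∀ A ∈ f, δ ≤ M.μ A := by
  classical
  have hFA : FA M.μ := ⟨M.nonneg, M.univ, M.add, M.single⟩
  by_contra hcon
  push Not at hcon
  have hna : ∀ f, IsEnd f → ∀ ε : ℝ, 0 < ε → ∃ A ∈ f, M.μ A < ε := hcon
  have hh1 : PW (L : Set HS) h := by simpa using hh 1
  obtain ⟨C₁, h11, h12⟩ := consts hFA hh1 M.inv_h
  obtain ⟨C₂, h21, h22⟩ := consts hFA ht M.inv_t
  obtain ⟨K, hK⟩ := C.main S h t m hm hrel (Fd M.μ) (C₁ ∪ C₂)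
    (fun c hc => (Finset.mem_union.1 hc).elim (h11 c) (h21 c))
    (fun x => let ⟨c, hc, he⟩ := h12 x; ⟨c, Finset.mem_union_left _ hc, he⟩)
    (fun x => let ⟨c, hc, he⟩ := h22 x; ⟨c, Finset.mem_union_right _ hc, he⟩)
  have hnull : ∀ d : ℕ, 0 < d → M.μ {x | Fd M.μ ((h ^ d) x) = Fd M.μ x} = 0 := by
    intro d hd
    exact N.t I.e1 O.o1 O.o2 O.o3 M.μ M.nonneg M.univ M.add M.single hna (L : Set HS) (h ^ d)
      hL (hh d) (inv_pow_of M.inv_h d) (M.fix d hd)
  -- all points are in the union of the preimages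
  let B : Fin K → Set S := fun j => ⋃ d : Fin K,
    ((h ^ (j : ℕ) : Equiv.Perm S) ⁻¹' {x | Fd M.μ ((h ^ ((d : ℕ) + 1)) x) = Fd M.μ x})
  have hB : ∀ j, M.μ (B j) = 0 := by
    intro j
    apply hFA.iUnion_null
    intro d
    rw [inv_pow_of M.inv_h, hnull _ (Nat.succ_pos _)]
  have hcov : (univ : Set S) ⊆ ⋃ j, B j := by
    intro z _
    obtain ⟨j, d, hj, hd, hdK, he⟩ := hK z
    refine mem_iUnion.2 ⟨⟨j, hj⟩, mem_iUnion.2 ⟨⟨d - 1, by omega⟩, ?_⟩⟩
    rw [mem_preimage, mem_setOf_eq]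
    have h1 : d - 1 + 1 = d := by omega
    simp only [h1]
    exact he
  have h1 := hFA.mono hcov
  rw [hFA.univ, hFA.iUnion_null _ hB] at h1
  linarith

/-- the atoms of mass at least `δ` are finite in number -/
lemma atoms_finite {μ : Set S → ℝ} (h : FA μ) {δ : ℝ} (hδ : 0 < δ) :
    {f | IsEnd f ∧ ∀ A ∈ f, δ ≤ μ A}.Finite := by
  classical
  by_contra hinf
  obtain ⟨N, hN⟩ := exists_nat_gt (1 / δ)
  obtain ⟨T, hT, hcard⟩ := Set.Infinite.exists_subset_card_eq hinf N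
  -- pairwise disjoint sets
  have hsep : ∀ f ∈ T, ∀ f' ∈ T, f ≠ f' → Disjoint f f' := fun f hf f' hf' hne =>
    E.e2 f f' (hT hf).1 (hT hf').1 hne
  have hpair : (T : Set (Filter S)).PairwiseDisjoint id := fun f hf f' hf' hne =>
    hsep f hf f' hf' hne
  obtain ⟨s, hs, hdisj⟩ := hpair.exists_mem_filter T.finite_toSet
  have hsum : ∀ T' ⊆ T, μ (⋃ f ∈ T', s f) = ∑ f ∈ T', μ (s f) := by
    intro T'
    induction T' using Finset.induction_on with
    | empty =>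
      intro _
      simp [h.empty]
    | @insert a T' ha ih =>
      intro hsub
      rw [Finset.set_biUnion_insert, Finset.sum_insert ha, h.add, ih
        ((Finset.subset_insert _ _).trans hsub)]
      rw [Set.disjoint_iUnion₂_right]
      intro f hf
      refine hdisj (hsub (Finset.mem_insert_self _ _)) (hsub (Finset.mem_insert_of_mem hf)) ?_
      rintro rfl
      exact ha hf
  have h1 : ∑ f ∈ T, μ (s f) ≤ 1 := by
    rw [← hsum T Finset.Subset.rfl]
    exact h.le_one _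
  have h2 : ∑ f ∈ T, δ ≤ ∑ f ∈ T, μ (s f) :=
    Finset.sum_le_sum fun f hf => (hT hf).2 _ (hs f)
  rw [Finset.sum_const, hcard, nsmul_eq_mul] at h2
  rw [div_lt_iff₀ hδ] at hN
  linarith

/-- a finite set of filters permuted by a bijection consists of periodic filters -/
lemma periodic {𝒜 : Set (Filter S)} (hfin : 𝒜.Finite) (g : Equiv.Perm S)
    (hmaps : ∀ f ∈ 𝒜, map g f ∈ 𝒜) {f : Filter S} (hf : f ∈ 𝒜) :
    ∃ q : ℕ, 0 < q ∧ map (g ^ q : Equiv.Perm S) f = f := by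
  have : Finite 𝒜 := hfin
  let e : 𝒜 → 𝒜 := fun a => ⟨map g a.1, hmaps a.1 a.2⟩
  have he : Function.Injective e := by
    intro a b hab
    apply Subtype.ext
    have := congrArg Subtype.val hab
    exact map_injective g.injective this
  let σ : Equiv.Perm 𝒜 := Equiv.ofBijective e (Finite.injective_iff_bijective.1 he)
  refine ⟨orderOf σ, orderOf_pos σ, ?_⟩
  have h1 : ∀ n : ℕ, ((σ ^ n) ⟨f, hf⟩ : Filter S) = map (g ^ n : Equiv.Perm S) f := by
    intro n
    induction n with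
    | zero =>
      change f = map id f
      rw [map_id]
    | succ n ih =>
      rw [pow_succ', pow_succ']
      change map g (((σ ^ n) ⟨f, hf⟩ : 𝒜) : Filter S) = map (g ∘ (g ^ n : Equiv.Perm S)) f
      rw [ih, map_map]
  have h2 := h1 (orderOf σ)
  rw [pow_orderOf_eq_one] at h2
  exact h2.symm

/-- The dynamical theorem. -/
theorem dyn (hM : R_M) {L : Subgroup HS} (hL : FF (L : Set HS)) {K : Set S} (hK : IsClosed K)
    (a b : Equiv.Perm S) (ha : ∀ n : ℕ, PW (L : Set HS) (a ^ n : Equiv.Perm S))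
    (hb : ∀ n : ℕ, PW (L : Set HS) (b ^ n : Equiv.Perm S)) (haK : ∀ s, s ∉ K → a s = s)
    (m : ℕ) (hm : 2 ≤ m) (hrel : b * a * b⁻¹ = a ^ m)
    (hinf : ∀ n : ℕ, 0 < n → {x | (a ^ n) x ≠ x}.Infinite) :
    ∃ (x : S) (l θ : HS) (k : ℕ), x ∈ K ∧ l ∈ L ∧ θ ∈ L ∧ 0 < k ∧ l x = x ∧ θ x = x ∧
      (∀ n : ℕ, 0 < n → l ^ n ≠ 1) ∧ θ * l * θ⁻¹ = l ^ (m ^ k) := by
  classical
  obtain ⟨M⟩ := hM S a b m hrel hinf
  have hFA : FA M.μ := ⟨M.nonneg, M.univ, M.add, M.single⟩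
  have hb1 : PW (L : Set HS) b := by simpa using hb 1
  have ha1 : PW (L : Set HS) a := by simpa using ha 1
  obtain ⟨f, hf, δ, hδ, hmass⟩ := exists_atom hL ha hb1 hm hrel M
  have hfin := atoms_finite hFA hδ
  have hmaps : ∀ g : Equiv.Perm S, PW (L : Set HS) g → (∀ A, M.μ (g ⁻¹' A) = M.μ A) →
      ∀ f ∈ {f | IsEnd f ∧ ∀ A ∈ f, δ ≤ M.μ A},
        map g f ∈ {f | IsEnd f ∧ ∀ A ∈ f, δ ≤ M.μ A} := by
    rintro g hgP hg f ⟨hf, hmf⟩
    refine ⟨?_, fun A hA => ?_⟩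
    · obtain ⟨l, _, hl⟩ := E.e3.1 _ _ hgP f hf
      obtain ⟨κ, rfl⟩ := hf
      refine ⟨l * κ, ?_⟩
      rw [Filter.map_congr hl, map_map]
      rfl
    · rw [← hg A]
      exact hmf _ hA
  obtain ⟨q, hq, hqf⟩ := periodic hfin a (hmaps a ha1 M.inv_h) ⟨hf, hmass⟩
  obtain ⟨k, hk, hkf⟩ := periodic hfin b (hmaps b hb1 M.inv_t) ⟨hf, hmass⟩
  obtain ⟨l, hlL, hl⟩ := E.e3.1 _ _ (ha q) f hf
  obtain ⟨θ, hθL, hθ⟩ := E.e3.1 _ _ (hb k) f hf
  obtain ⟨hne, ⟨x, hx⟩, hcof⟩ := E.e3.2 f hf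
  have hlf : map l f = f := by rw [← Filter.map_congr hl, hqf]
  have hθf : map θ f = f := by rw [← Filter.map_congr hθ, hkf]
  have hfix : ∀ κ : HS, map κ f = f → κ x = x := by
    intro κ hκ
    have h1 : Tendsto κ f (𝓝 (κ x)) := (κ.continuous.tendsto x).mono_left hx
    have h2 : Tendsto κ f (𝓝 x) := by
      rw [Tendsto, hκ]
      exact hx
    exact tendsto_nhds_unique h1 h2
  have hpow : ∀ n : ℕ, map (l ^ n : HS) f = f ∧
      ∀ᶠ s in f, ((a ^ q) ^ n : Equiv.Perm S) s = (l ^ n : HS) s := by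
    intro n
    induction n with
    | zero =>
      constructor
      · change map id f = f
        rw [map_id]
      · exact Eventually.of_forall fun s => rfl
    | succ n ih =>
      obtain ⟨h1, h2⟩ := ih
      constructor
      · rw [pow_succ']
        have h3 : map (l * l ^ n : HS) f = map l (map (l ^ n : HS) f) := by
          rw [map_map]
          rfl
        rw [h3, h1, hlf]
      · have h3 : ∀ᶠ s in f, (a ^ q : Equiv.Perm S) ((l ^ n : HS) s) = l ((l ^ n : HS) s) := by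
          have h4 : ∀ᶠ s in map (l ^ n : HS) f, (a ^ q : Equiv.Perm S) s = l s := by
            rw [h1]; exact hl
          exact h4
        filter_upwards [h2, h3] with s h4 h5
        rw [pow_succ', pow_succ', Equiv.Perm.mul_apply, h4, h5]
        rfl
  have hord : ∀ n : ℕ, 0 < n → l ^ n ≠ 1 := by
    intro n hn hln
    have h1 := (hpow n).2
    rw [hln] at h1
    have h2 : {x | (a ^ (q * n)) x = x} ∈ f := by
      filter_upwards [h1] with s hs
      rw [pow_mul, hs]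
      rfl
    have h3 := hmass _ h2
    rw [M.fix _ (Nat.mul_pos hq hn)] at h3
    linarith
  refine ⟨x, l, θ, k, ?_, hlL, hθL, hk, hfix l hlf, hfix θ hθf, hord, ?_⟩
  · -- the point is in `K`
    have hl1 : l ≠ 1 := by
      have := hord 1 one_pos
      rwa [pow_one] at this
    have h1 := hcof _ (hL _ hlL hl1)
    have h2 : K ∈ f := by
      filter_upwards [h1, hl] with s b1 b2
      by_contra hs
      apply b1
      change l s = s
      rw [← b2]
      have : ∀ n : ℕ, (a ^ n : Equiv.Perm S) s = s := by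
        intro n
        induction n with
        | zero => rfl
        | succ n ih => rw [pow_succ, Equiv.Perm.mul_apply, haK s hs, ih]
      exact this q
    exact hK.mem_of_tendsto (f := id) (b := f) hx h2
  · have hgrp : b ^ k * a ^ q = (a ^ q) ^ (m ^ k) * b ^ k := by
      have h1 : ∀ k : ℕ, b ^ k * a * (b ^ k)⁻¹ = a ^ (m ^ k) := by
        intro k
        induction k with
        | zero => simp
        | succ k ih =>
          calc b ^ (k + 1) * a * (b ^ (k + 1))⁻¹ = b * (b ^ k * a * (b ^ k)⁻¹) * b⁻¹ := by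
                rw [pow_succ']; group
            _ = (b * a * b⁻¹) ^ (m ^ k) := by rw [ih, conj_pow]
            _ = a ^ (m ^ (k + 1)) := by rw [hrel, ← pow_mul]; congr 1; ring
      have h2 : b ^ k * a ^ q * (b ^ k)⁻¹ = (a ^ q) ^ (m ^ k) := by
        rw [← conj_pow, h1, ← pow_mul, ← pow_mul, mul_comm]
      rw [← h2]
      group
    have h1 : ∀ᶠ s in f, (b ^ k : Equiv.Perm S) (l s) = θ (l s) := by
      have h4 : ∀ᶠ s in map l f, (b ^ k : Equiv.Perm S) s = θ s := by rw [hlf]; exact hθ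
      exact h4
    have h2 : ∀ᶠ s in f, ((a ^ q) ^ (m ^ k) : Equiv.Perm S) (θ s) = (l ^ (m ^ k) : HS) (θ s) := by
      have h4 : ∀ᶠ s in map θ f, ((a ^ q) ^ (m ^ k) : Equiv.Perm S) s =
          (l ^ (m ^ k) : HS) s := by
        rw [hθf]
        exact (hpow _).2
      exact h4
    have h3 : ∀ᶠ s in f, θ (l s) = (l ^ (m ^ k) : HS) (θ s) := by
      filter_upwards [h1, h2, hl, hθ] with s a1 a2 a3 a4
      rw [← a1, ← a2, ← a3, ← a4, ← Equiv.Perm.mul_apply, ← Equiv.Perm.mul_apply, hgrp]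
    have h4 : (l ^ (m ^ k) * θ)⁻¹ * (θ * l) = 1 := by
      by_contra hne1
      have h5 : (l ^ (m ^ k) * θ)⁻¹ * (θ * l) ∈ L :=
        L.mul_mem (L.inv_mem (L.mul_mem (L.pow_mem hlL _) hθL)) (L.mul_mem hθL hlL)
      have h6 := hcof _ (hL _ h5 hne1)
      have h7 : ∀ᶠ s in f, False := by
        filter_upwards [h3, h6] with s b1 b2
        apply b2
        change (l ^ (m ^ k) * θ)⁻¹ (θ (l s)) = s
        rw [b1]
        exact (l ^ (m ^ k) * θ).symm_apply_apply s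
      exact (h7.exists).choose_spec
    have h5 : θ * l = l ^ (m ^ k) * θ := by
      rw [inv_mul_eq_one] at h4
      exact h4.symm
    rw [h5]
    group

end Pool.Agent.H86.BT.A
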