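import Pool.Agent.H86.BT.PA
import Pool.Agent.H6.BT.M
import Pool.Graph.R_seed8.H26R2.Bass.Main

set_option autoImplicit false

open Set Filter Topology

namespace Pool.Agent.H86.BT.B

universe u v

open Pool.Agent.H26R2.Bass (tau Good Admissible bass_main)
open Pool.Agent.H26R2.IdemLI (AlmostDiv)

/-- the inclusion of the line -/
abbrev c : ℝ → S := fun y => (y : S)

/-- `L` contains an element `l` of infinite order and an element `θ` with a common fixed point in
`K` and `θ l θ⁻¹ = l ^ (p ^ j)` -/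
def SelfSim (L : Subgroup HS) (K : Set S) (p : ℕ) : Prop :=
  ∃ (x : S) (l θ : HS) (j : ℕ), x ∈ K ∧ l ∈ L ∧ θ ∈ L ∧ 0 < j ∧ l x = x ∧ θ x = x ∧
    (∀ n : ℕ, 0 < n → l ^ n ≠ 1) ∧ θ * l * θ⁻¹ = l ^ (p ^ j)

lemma SelfSim.mono {L L' : Subgroup HS} (hLL : L ≤ L') {K : Set S} {p : ℕ}
    (h : SelfSim L K p) : SelfSim L' K p := by
  obtain ⟨x, l, θ, j, h0, h1, h2, h3⟩ := h
  exact ⟨x, l, θ, j, h0, hLL h1, hLL h2, h3⟩

/-- the condition on the ring and the group of homeomorphisms -/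
def Allowed (R : Type u) [CommRing R] (L : Subgroup HS) (K : Set S) : Prop :=
  (∃ p : ℕ, p.Prime ∧ ¬ IsUnit (p : R) ∧ ¬ SelfSim L K p) ∨
  (CharZero R ∧ ∀ T : Finset HS, (T : Set HS) ⊆ L → ∀ n : ℕ, ∃ p : ℕ, p.Prime ∧ n < p ∧
    ¬ SelfSim (Subgroup.closure (T : Set HS)) K p)

lemma PW.mono {P P' : Set HS} (hPP : P ⊆ P') {f : S → S} (h : PW P f) : PW P' f := by
  obtain ⟨F, hF⟩ := h
  refine ⟨F, fun I hI hd => ?_⟩
  obtain ⟨l, hl, h1⟩ := hF I hI hd
  exact ⟨l, hPP hl, h1⟩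

lemma pw_finite {P : Set HS} {f : S → S} (h : PW P f) :
    ∃ T : Finset HS, (T : Set HS) ⊆ P ∧ PW (T : Set HS) f := by
  classical
  obtain ⟨F, hF⟩ := h
  let J : Fin (F.card + 1) → Set ℝ := fun i => {x | x ∉ F ∧ (F.filter (· < x)).card = i}
  have hJ : ∀ i, (J i).OrdConnected := by
    intro i
    refine ⟨fun x hx y hy z hz => ?_⟩
    have h1 : (F.filter (· < x)) ⊆ (F.filter (· < z)) :=
      Finset.monotone_filter_right _ fun w _ hw => hw.trans_le hz.1
    have h2 : (F.filter (· < z)) ⊆ (F.filter (· < y)) :=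
      Finset.monotone_filter_right _ fun w _ hw => hw.trans_le hz.2
    have h3 := Finset.card_le_card h1
    have h4 := Finset.card_le_card h2
    have h5 := hx.2
    have h6 := hy.2
    refine ⟨fun hzF => ?_, by omega⟩
    rcases hz.2.eq_or_lt with h7 | h7
    · exact hy.1 (h7 ▸ hzF)
    · have h8 : (F.filter (· < z)) ⊂ (F.filter (· < y)) := by
        refine Finset.ssubset_iff_subset_ne.2 ⟨h2, fun h => ?_⟩
        have h9 : z ∈ F.filter (· < y) := Finset.mem_filter.2 ⟨hzF, h7⟩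
        rw [← h] at h9
        exact absurd (Finset.mem_filter.1 h9).2 (lt_irrefl z)
      have := Finset.card_lt_card h8
      omega
  choose l hlP hgl using fun i => hF (J i) (hJ i) (fun x hx hxJ => hxJ.1 hx)
  refine ⟨Finset.univ.image l, ?_, F, fun I hI hd => ?_⟩
  · intro x hx
    rw [Finset.coe_image] at hx
    obtain ⟨i, _, rfl⟩ := hx
    exact hlP i
  · rcases eq_empty_or_nonempty I with rfl | ⟨a, ha⟩
    · exact ⟨l 0, by simp, fun x hx => absurd hx (notMem_empty x)⟩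
    · let i : Fin (F.card + 1) := ⟨(F.filter (· < a)).card,
        Nat.lt_succ_of_le (Finset.card_le_card (Finset.filter_subset _ _))⟩
      refine ⟨l i, by simp, fun x hx => hgl i x ⟨fun h => hd x h hx, ?_⟩⟩
      change (F.filter (· < x)).card = (F.filter (· < a)).card
      congr 1
      ext w
      simp only [Finset.mem_filter, and_congr_right_iff]
      intro hw
      have hwI := hd w hw
      constructor
      · intro h1
        by_contra h2
        exact hwI (hI.out ha hx ⟨not_lt.1 h2, h1.le⟩)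
      · intro h1
        by_contra h2
        exact hwI (hI.out hx ha ⟨not_lt.1 h2, h1.le⟩)

lemma pw_one (L : Subgroup HS) : PW (L : Set HS) (1 : Equiv.Perm S) :=
  ⟨∅, fun _ _ _ => ⟨1, L.one_mem, fun _ _ => rfl⟩⟩

lemma pw_mul {L : Subgroup HS} {f g : Equiv.Perm S} (hf : PW (L : Set HS) f)
    (hg : PW (L : Set HS) g) : PW (L : Set HS) (f * g : Equiv.Perm S) := by
  classical
  obtain ⟨F, hF⟩ := hf
  obtain ⟨F', hF'⟩ := hg
  have hfin : {x : ℝ | g (x : S) ∈ c '' (F : Set ℝ) ∪ {OnePoint.infty}}.Finite :=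
    ((F.finite_toSet.image _).union (finite_singleton _)).preimage
      (f := fun x : ℝ => g (x : S)) (g.injective.comp OnePoint.coe_injective).injOn
  refine ⟨F' ∪ hfin.toFinset, fun I hI hd => ?_⟩
  obtain ⟨l, hl, hgl⟩ := hF' I hI fun x hx => hd x (Finset.mem_union_left _ hx)
  have hav : ∀ x ∈ I, g (x : S) ∉ c '' (F : Set ℝ) ∪ {OnePoint.infty} := by
    intro x hx h
    exact hd x (Finset.mem_union_right _ (hfin.mem_toFinset.2 h)) hx
  set J : Set ℝ := c ⁻¹' (l '' (c '' I)) with hJ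
  have himg : c '' J = l '' (c '' I) := by
    rw [hJ, image_preimage_eq_iff]
    rintro _ ⟨_, ⟨x, hx, rfl⟩, rfl⟩
    have h1 : l (x : S) ≠ OnePoint.infty := by
      rw [← hgl x hx]
      exact fun h => hav x hx (Or.inr h)
    obtain ⟨y, hy⟩ := OnePoint.ne_infty_iff_exists.1 h1
    exact ⟨y, hy⟩
  have hconn : IsPreconnected (l '' (c '' I)) :=
    ((hI.isPreconnected).image c OnePoint.continuous_coe.continuousOn).image l
      l.continuous.continuousOn
  rw [← himg, OnePoint.isOpenEmbedding_coe.isInducing.isPreconnected_image] at hconn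
  obtain ⟨l', hl', hfl⟩ := hF J hconn.ordConnected (by
    rintro x hx ⟨_, ⟨y, hy, rfl⟩, hxy⟩
    refine hav y hy (Or.inl ⟨x, hx, ?_⟩)
    rw [hgl y hy]
    exact hxy.symm)
  refine ⟨l' * l, L.mul_mem hl' hl, fun x hx => ?_⟩
  have h1 : l (x : S) ∈ c '' J := by
    rw [himg]
    exact ⟨_, ⟨x, hx, rfl⟩, rfl⟩
  obtain ⟨y, hy, hyx⟩ := h1
  rw [Equiv.Perm.mul_apply, hgl x hx]
  change f (l (x : S)) = l' (l (x : S))
  rw [← hyx]
  exact hfl y hy

/-- finitely generated groups of piecewise homeomorphisms have their pieces in finitely generated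
groups -/
lemma pw_fg {L : Subgroup HS} {G : Type v} [Group G] (ρ : G →* Equiv.Perm S)
    (hρ : ∀ g, PW (L : Set HS) (ρ g)) {H : Subgroup G} (hH : H.FG) :
    ∃ T : Finset HS, (T : Set HS) ⊆ L ∧
      ∀ x ∈ H, PW (Subgroup.closure (T : Set HS) : Set HS) (ρ x) := by
  classical
  obtain ⟨s, rfl⟩ := hH
  choose T hT1 hT2 using fun g => pw_finite (hρ g)
  let T' : Finset HS := s.biUnion fun g => T g ∪ T g⁻¹
  have hsub : ∀ g ∈ s, (T g : Set HS) ⊆ T' ∧ (T g⁻¹ : Set HS) ⊆ T' := by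
    intro g hg
    have h1 : T g ∪ T g⁻¹ ⊆ T' := Finset.subset_biUnion_of_mem (fun g => T g ∪ T g⁻¹) hg
    constructor
    · intro x hx
      exact h1 (Finset.mem_union_left _ hx)
    · intro x hx
      exact h1 (Finset.mem_union_right _ hx)
  refine ⟨T', ?_, ?_⟩
  · intro x hx
    obtain ⟨g, _, hg2⟩ := Finset.mem_biUnion.1 hx
    rcases Finset.mem_union.1 hg2 with h | h
    · exact hT1 _ h
    · exact hT1 _ h
  · intro x hx
    have key : PW (Subgroup.closure (T' : Set HS) : Set HS) (ρ x) ∧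
        PW (Subgroup.closure (T' : Set HS) : Set HS) (ρ x⁻¹) := by
      induction hx using Subgroup.closure_induction with
      | mem y hy =>
        obtain ⟨h1, h2⟩ := hsub y hy
        exact ⟨PW.mono (h1.trans Subgroup.subset_closure) (hT2 _),
          PW.mono (h2.trans Subgroup.subset_closure) (hT2 _)⟩
      | one =>
        rw [inv_one, map_one]
        exact ⟨pw_one _, pw_one _⟩
      | mul y z _ _ h1 h2 =>
        rw [mul_inv_rev, map_mul, map_mul]
        exact ⟨pw_mul h1.1 h2.1, pw_mul h2.2 h1.2⟩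
      | inv y _ h1 =>
        rw [inv_inv]
        exact ⟨h1.2, h1.1⟩
    exact key.1

/-- permutations with finite support have finite order -/
lemma finite_support (σ : Equiv.Perm S) (hσ : {x | σ x ≠ x}.Finite) : ∃ N : ℕ, 0 < N ∧ σ ^ N = 1 := by
  classical
  have hf : Finite {x | σ x ≠ x} := hσ
  have hinv : ∀ x, σ x ≠ x ↔ σ (σ x) ≠ σ x := fun x => (σ.injective.ne_iff).symm
  let τ : Equiv.Perm {x // σ x ≠ x} := σ.subtypePerm fun x => (hinv x).symm
  have hf' : Finite {x // σ x ≠ x} := hσ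
  refine ⟨orderOf τ, orderOf_pos τ, ?_⟩
  ext x
  by_cases hx : σ x = x
  · have : ∀ n : ℕ, (σ ^ n) x = x := by
      intro n
      induction n with
      | zero => rfl
      | succ n ih => rw [pow_succ, Equiv.Perm.mul_apply, hx, ih]
    rw [this]
    rfl
  · have h1 : ∀ n : ℕ, (((τ ^ n) ⟨x, hx⟩ : {x // σ x ≠ x}) : S) = (σ ^ n) x := by
      intro n
      induction n with
      | zero => rfl
      | succ n ih =>
        rw [pow_succ', pow_succ', Equiv.Perm.mul_apply, Equiv.Perm.mul_apply, ← ih]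
        rfl
    rw [← h1, pow_orderOf_eq_one]
    rfl

/-- elements detected by piecewise homeomorphisms are good -/
theorem good {R : Type u} [CommRing R] [IsDomain R] {L : Subgroup HS} (hL : FF (L : Set HS))
    {K : Set S} (hK : IsClosed K) (hR : Allowed R L K) {H : Type v} [Group H]
    (hfg : (⊤ : Subgroup H).FG) (ρ : H →* Equiv.Perm S)
    (hρ : ∀ g, PW (L : Set HS) (ρ g)) (hρK : ∀ g s, s ∉ K → ρ g s = s) (h : H)
    (hh : ∀ n : ℕ, 0 < n → ρ h ^ n ≠ 1) : Good R (QuotientGroup.mk' ρ.ker h) := by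
  classical
  have hinf : ∀ n : ℕ, 0 < n → {x | (ρ h ^ n) x ≠ x}.Infinite := by
    intro n hn h1
    obtain ⟨N, hN, h2⟩ := finite_support _ h1
    rw [← pow_mul] at h2
    exact hh _ (Nat.mul_pos hn hN) h2
  have hconj : ∀ n : ℕ, IsConj (QuotientGroup.mk' ρ.ker h) ((QuotientGroup.mk' ρ.ker h) ^ n) →
      ∃ t : H, ρ t * ρ h * (ρ t)⁻¹ = ρ h ^ n := by
    intro n hc
    obtain ⟨c, hc⟩ := isConj_iff.1 hc
    obtain ⟨t, rfl⟩ := QuotientGroup.mk'_surjective ρ.ker c
    refine ⟨t, ?_⟩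
    rw [← map_inv, ← map_mul, ← map_mul, ← map_pow] at hc
    have h2 : (t * h * t⁻¹)⁻¹ * h ^ n ∈ ρ.ker := QuotientGroup.eq.1 hc
    rw [MonoidHom.mem_ker, map_mul, map_inv, inv_mul_eq_one] at h2
    rw [← map_pow, ← h2, map_mul, map_mul, map_inv]
  have key : ∀ L' : Subgroup HS, L' ≤ L → (∀ x, PW (L' : Set HS) (ρ x)) → ∀ p j : ℕ,
      p.Prime → 1 ≤ j → IsConj (QuotientGroup.mk' ρ.ker h)
        ((QuotientGroup.mk' ρ.ker h) ^ p ^ j) → SelfSim L' K p := by
    intro L' hLL hpw p j hp hj hc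
    obtain ⟨t, ht⟩ := hconj _ hc
    have h2 : 2 ≤ p ^ j := hp.two_le.trans (Nat.le_self_pow (by omega) p)
    obtain ⟨x, l, θ, k, h0, h3, h4, hk, h5, h6, h7, h8⟩ := A.dyn Pool.Agent.H6.BT.M (L := L')
      (fun l hl => hL l (hLL hl)) hK (ρ h) (ρ t) (fun n => by rw [← map_pow]; exact hpw _)
      (fun n => by rw [← map_pow]; exact hpw _) (hρK h) (p ^ j) h2 ht hinf
    refine ⟨x, l, θ, j * k, h0, h3, h4, Nat.mul_pos (by omega) hk, h5, h6, h7, ?_⟩
    rw [h8, ← pow_mul]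
  rcases hR with ⟨p, hp, hpR, hps⟩ | ⟨h0, hT⟩
  · exact Or.inr (Or.inl ⟨p, hp, hpR, fun j hj hc => hps (key L le_rfl hρ p j hp hj hc)⟩)
  · refine Or.inr (Or.inr ⟨h0, ?_⟩)
    rintro ⟨m, J, hm, hJ, hmJ⟩
    obtain ⟨T, hTL, hTH⟩ := pw_fg ρ hρ hfg
    obtain ⟨p, hp, hpm, hps⟩ := hT T hTL m
    have hcop : p.Coprime m := by
      rw [hp.coprime_iff_not_dvd]
      intro hdvd
      have := Nat.le_of_dvd (by omega) hdvd
      omega
    exact hps (key _ ((Subgroup.closure_le L).2 hTL) (fun x => hTH x (Subgroup.mem_top x))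
      p J hp hJ (hmJ p hcop))

/-- The Bass trace conjecture for groups detected by piecewise homeomorphisms. -/
theorem bass {R : Type u} [CommRing R] [IsDomain R] {G : Type v} [Group G]
    (hdet : ∀ H : Subgroup G, H.FG → ∀ h : H, (∀ n : ℕ, 0 < n → h ^ n ≠ 1) →
      ∃ (L : Subgroup HS) (K : Set S) (ρ : H →* Equiv.Perm S), FF (L : Set HS) ∧ IsClosed K ∧
        Allowed R L K ∧ (∀ g, PW (L : Set HS) (ρ g)) ∧ (∀ g s, s ∉ K → ρ g s = s) ∧
        ∀ n : ℕ, 0 < n → ρ h ^ n ≠ 1) {k : ℕ}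
    (X : Matrix (Fin k) (Fin k) (MonoidAlgebra R G)) (hX : X * X = X) (g : G)
    (hg : ¬ IsUnit ((orderOf g : ℕ) : R)) : tau X g = 0 := by
  have hadm : Admissible R G := by
    refine ⟨⊥, ⟨0, fun _ => ⊥, fun _ => inferInstance, rfl, rfl, fun i hi => by omega⟩, ?_⟩
    intro H hH h hh
    obtain ⟨L, K, ρ, hL, hK, hR, hρ, hρK, hinf⟩ := hdet H hH h (fun n hn h1 => by
      apply hh n hn
      rw [Subgroup.mem_bot, ← Subgroup.coe_pow, h1, Subgroup.coe_one])
    have hfg : (⊤ : Subgroup H).FG := by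
      rw [← Group.fg_def]
      exact (Group.fg_iff_subgroup_fg H).2 hH
    exact ⟨ρ.ker, inferInstance, good hL hK hR hfg ρ hρ hρK h hinf⟩
  exact bass_main (Or.inl hadm) X hX g hg

end Pool.Agent.H86.BT.B
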