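import Pool.Agent.H86.BT.Defs

set_option autoImplicit false

open Set Filter Topology

namespace Pool.Agent.H86.BT.N

/-- finitely additive probability without point masses -/
structure FA (μ : Set S → ℝ) : Prop where
  nonneg : ∀ A, 0 ≤ μ A
  univ : μ univ = 1
  add : ∀ A B, Disjoint A B → μ (A ∪ B) = μ A + μ B
  single : ∀ x, μ {x} = 0

variable {μ : Set S → ℝ}

/-- the inclusion of the line -/
abbrev c : ℝ → S := fun y => (y : S)

lemma c_inj : Function.Injective c := OnePoint.coe_injective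

namespace FA

lemma empty (h : FA μ) : μ ∅ = 0 := by
  have := h.add ∅ ∅ (by simp)
  rw [union_self] at this
  linarith

lemma mono (h : FA μ) {A B : Set S} (hAB : A ⊆ B) : μ A ≤ μ B := by
  have h1 := h.add A (B \ A) disjoint_sdiff_right
  rw [union_sdiff_cancel hAB] at h1
  linarith [h.nonneg (B \ A)]

lemma union_le (h : FA μ) (A B : Set S) : μ (A ∪ B) ≤ μ A + μ B := by
  have h1 := h.add A (B \ A) disjoint_sdiff_right
  rw [union_sdiff_self] at h1
  have h2 := h.mono (sdiff_subset : B \ A ⊆ B)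
  linarith

lemma finite (h : FA μ) {A : Set S} (hA : A.Finite) : μ A = 0 := by
  induction A, hA using Set.Finite.induction_on with
  | empty => exact h.empty
  | @insert a s _ _ ih =>
    have h1 := h.union_le {a} s
    rw [← insert_eq, ih, h.single] at h1
    linarith [h.nonneg (insert a s)]

lemma le_one (h : FA μ) (A : Set S) : μ A ≤ 1 := by
  rw [← h.univ]
  exact h.mono (subset_univ _)

/-- finite unions of null sets -/
lemma iUnion_null (h : FA μ) {n : ℕ} (A : Fin n → Set S) (hA : ∀ i, μ (A i) = 0) :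
    μ (⋃ i, A i) = 0 := by
  induction n with
  | zero => 
    rw [iUnion_of_empty]
    exact h.empty
  | succ n ih =>
    have h1 : (⋃ i, A i) = (⋃ i : Fin n, A i.succ) ∪ A 0 := by
      ext x
      simp only [mem_iUnion, mem_union, Fin.exists_fin_succ]
      tauto
    have h2 := h.union_le (⋃ i : Fin n, A i.succ) (A 0)
    rw [← h1, hA 0, ih _ (fun i => hA _)] at h2
    linarith [h.nonneg (⋃ i, A i)]

end FA

lemma Fd_coe (x : ℝ) : Fd μ (x : S) = μ (c '' Iio x) := rfl

lemma Ico_eq (h : FA μ) {x y : ℝ} (hxy : x ≤ y) : μ (c '' Ico x y) = Fd μ y - Fd μ x := by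
  have h1 : c '' Iio y = c '' Iio x ∪ c '' Ico x y := by
    rw [← image_union, Iio_union_Ico_eq_Iio hxy]
  have h2 : Disjoint (c '' Iio x) (c '' Ico x y) := by
    rw [disjoint_image_iff c_inj, Set.disjoint_left]
    intro z hz hz'
    exact absurd hz (not_lt.2 hz'.1)
  rw [Fd_coe, Fd_coe, h1, h.add _ _ h2]
  ring

lemma Fd_mono (h : FA μ) : Monotone (fun x : ℝ => Fd μ x) := by
  intro x y hxy
  have := Ico_eq h hxy
  have h2 := h.nonneg (c '' Ico x y)
  simp only
  linarith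

/-- no atoms at the ends -/
def NA (μ : Set S → ℝ) : Prop := ∀ f, IsEnd f → ∀ ε : ℝ, 0 < ε → ∃ A ∈ f, μ A < ε

lemma right_small (h : FA μ) (hna : NA μ) (hE1 : R_E1) (x : ℝ) {ε : ℝ} (hε : 0 < ε) :
    ∃ w > x, μ (c '' Ico x w) < ε := by
  obtain ⟨A, hA, hlt⟩ := hna _ (hE1.1 x).1 ε hε
  obtain ⟨w, hw, hsub⟩ := mem_nhdsGT_iff_exists_Ioo_subset.1 (mem_map.1 hA)
  refine ⟨w, hw, ?_⟩
  have h1 : c '' Ico x w ⊆ {(x : S)} ∪ A := by
    rintro _ ⟨z, hz, rfl⟩
    rcases hz.1.eq_or_lt with rfl | h2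
    · exact Or.inl rfl
    · exact Or.inr (hsub ⟨h2, hz.2⟩)
  have h2 := h.mono h1
  have h3 := h.union_le {(x : S)} A
  rw [h.single] at h3
  linarith

lemma left_small (h : FA μ) (hna : NA μ) (hE1 : R_E1) (x : ℝ) {ε : ℝ} (hε : 0 < ε) :
    ∃ w < x, μ (c '' Ioo w x) < ε := by
  obtain ⟨A, hA, hlt⟩ := hna _ (hE1.1 x).2 ε hε
  obtain ⟨w, hw, hsub⟩ := mem_nhdsLT_iff_exists_Ioo_subset.1 (mem_map.1 hA)
  refine ⟨w, hw, lt_of_le_of_lt (h.mono ?_) hlt⟩
  rintro _ ⟨z, hz, rfl⟩
  exact hsub hz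

lemma Fd_cont (h : FA μ) (hna : NA μ) (hE1 : R_E1) : Continuous (fun x : ℝ => Fd μ x) := by
  rw [continuous_iff_continuousAt]
  intro x
  rw [Metric.continuousAt_iff']
  intro ε hε
  obtain ⟨w, hw, h1⟩ := right_small h hna hE1 x hε
  obtain ⟨w', hw', h2⟩ := left_small h hna hE1 x hε
  filter_upwards [Ioo_mem_nhds hw' hw] with y hy
  rw [Real.dist_eq]
  rcases le_total x y with hxy | hxy
  · have h3 := Ico_eq h hxy
    have h4 : μ (c '' Ico x y) ≤ μ (c '' Ico x w) :=
      h.mono (image_mono (Ico_subset_Ico_right hy.2.le))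
    have h5 := h.nonneg (c '' Ico x y)
    rw [abs_of_nonneg (by linarith)]
    linarith
  · have h3 := Ico_eq h hxy
    have h4 : c '' Ico y x ⊆ c '' Ioo w' x := by
      apply image_mono
      intro z hz
      exact ⟨hy.1.trans_le hz.1, hz.2⟩
    have h5 := h.mono h4
    have h6 := h.nonneg (c '' Ico y x)
    rw [abs_of_nonpos (by linarith)]
    linarith

lemma Fd_low (h : FA μ) (hna : NA μ) (hE1 : R_E1) {ε : ℝ} (hε : 0 < ε) :
    ∃ w : ℝ, Fd μ w < ε := by
  obtain ⟨A, hA, hlt⟩ := hna _ hE1.2.1 ε hε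
  obtain ⟨w, hw⟩ := mem_atBot_sets.1 (mem_map.1 hA)
  refine ⟨w, lt_of_le_of_lt (h.mono ?_) hlt⟩
  rintro _ ⟨z, hz, rfl⟩
  exact hw z (le_of_lt hz)

lemma Fd_high (h : FA μ) (hna : NA μ) (hE1 : R_E1) {ε : ℝ} (hε : 0 < ε) :
    ∃ w : ℝ, 1 - ε < Fd μ w := by
  obtain ⟨A, hA, hlt⟩ := hna _ hE1.2.2 ε hε
  obtain ⟨w, hw⟩ := mem_atTop_sets.1 (mem_map.1 hA)
  refine ⟨w, ?_⟩
  have h1 : (univ : Set S) ⊆ (c '' Iio w ∪ A) ∪ {OnePoint.infty} := by
    intro s _
    induction s using OnePoint.rec with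
    | infty => exact Or.inr rfl
    | coe x =>
      left
      rcases lt_or_ge x w with h2 | h2
      · exact Or.inl ⟨x, h2, rfl⟩
      · exact Or.inr (hw x h2)
  have h2 := h.mono h1
  have h3 := h.union_le (c '' Iio w ∪ A) {OnePoint.infty}
  have h4 := h.union_le (c '' Iio w) A
  rw [h.univ] at h2
  rw [h.single] at h3
  rw [Fd_coe]
  linarith

lemma Fd_surj (h : FA μ) (hna : NA μ) (hE1 : R_E1) {u : ℝ} (h0 : 0 < u) (h1 : u < 1) :
    ∃ w : ℝ, Fd μ w = u := by
  obtain ⟨a, ha⟩ := Fd_low h hna hE1 h0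
  obtain ⟨b, hb⟩ := Fd_high h hna hE1 (sub_pos.2 h1)
  exact mem_range_of_exists_le_of_exists_ge (Fd_cont h hna hE1) ⟨a, ha.le⟩ ⟨b, by linarith⟩

lemma level_le (h : FA μ) (hna : NA μ) (hE1 : R_E1) {v : ℝ} (hv : 0 ≤ v) :
    μ (c '' {x : ℝ | Fd μ x ≤ v}) ≤ v := by
  rcases le_or_gt 1 v with h1 | h1
  · exact (h.le_one _).trans h1
  · obtain ⟨b, hb⟩ := Fd_high h hna hE1 (sub_pos.2 h1)
    rcases eq_empty_or_nonempty {x : ℝ | Fd μ x ≤ v} with h2 | h2
    · rw [h2, image_empty, h.empty]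
      exact hv
    · have hbdd : BddAbove {x : ℝ | Fd μ x ≤ v} := by
        refine ⟨b, fun x hx => ?_⟩
        by_contra hcon
        have := Fd_mono h (le_of_lt (not_le.1 hcon))
        simp only [mem_setOf_eq] at hx this
        linarith
      have hcl : IsClosed {x : ℝ | Fd μ x ≤ v} :=
        isClosed_le (Fd_cont h hna hE1) continuous_const
      have hmem := hcl.csSup_mem h2 hbdd
      set s := sSup {x : ℝ | Fd μ x ≤ v} with hs
      have h3 : c '' {x : ℝ | Fd μ x ≤ v} ⊆ c '' Iio s ∪ {(s : S)} := by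
        rintro _ ⟨x, hx, rfl⟩
        rcases (le_csSup hbdd hx).lt_or_eq with h4 | h4
        · exact Or.inl ⟨x, h4, rfl⟩
        · right
          rw [mem_singleton_iff]
          exact congrArg c h4
      have h4 := h.mono h3
      have h5 := h.union_le (c '' Iio s) {(s : S)}
      rw [h.single] at h5
      have h6 : Fd μ (s : S) ≤ v := hmem
      rw [Fd_coe] at h6
      linarith

lemma level_ge (h : FA μ) (hna : NA μ) (hE1 : R_E1) {v : ℝ} (hv : v ≤ 1) :
    v ≤ μ (c '' {x : ℝ | Fd μ x < v}) := by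
  by_contra hcon
  push Not at hcon
  have h0 := h.nonneg (c '' {x : ℝ | Fd μ x < v})
  obtain ⟨u, hu1, hu2⟩ := exists_between hcon
  obtain ⟨w, hw⟩ := Fd_surj h hna hE1 (by linarith) (by linarith : u < 1)
  have h1 : c '' Iio w ⊆ c '' {x : ℝ | Fd μ x < v} := by
    apply image_mono
    intro x hx
    have := Fd_mono h (le_of_lt hx)
    simp only [mem_setOf_eq] at this ⊢
    linarith
  have h2 := h.mono h1
  rw [Fd_coe] at hw
  linarith

lemma level_null (h : FA μ) (hna : NA μ) (hE1 : R_E1) (v : ℝ) :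
    μ (c '' {x : ℝ | Fd μ x = v}) = 0 := by
  rcases lt_or_ge v 0 with h0 | h0
  · have : {x : ℝ | Fd μ x = v} = ∅ := by
      ext x
      simp only [mem_setOf_eq, mem_empty_iff_false, iff_false]
      intro hx
      have := h.nonneg (c '' Iio x)
      rw [Fd_coe] at hx
      linarith
    rw [this, image_empty, h.empty]
  rcases lt_or_ge 1 v with h1 | h1
  · have : {x : ℝ | Fd μ x = v} = ∅ := by
      ext x
      simp only [mem_setOf_eq, mem_empty_iff_false, iff_false]
      intro hx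
      have := h.le_one (c '' Iio x)
      rw [Fd_coe] at hx
      linarith
    rw [this, image_empty, h.empty]
  have h2 : c '' {x : ℝ | Fd μ x ≤ v} =
      c '' {x : ℝ | Fd μ x < v} ∪ c '' {x : ℝ | Fd μ x = v} := by
    rw [← image_union]
    congr 1
    ext x
    simp only [mem_setOf_eq, mem_union]
    exact le_iff_lt_or_eq
  have h3 : Disjoint (c '' {x : ℝ | Fd μ x < v}) (c '' {x : ℝ | Fd μ x = v}) := by
    rw [disjoint_image_iff c_inj, Set.disjoint_left]
    intro x hx hx'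
    exact absurd hx' (ne_of_lt hx)
  have h4 := h.add _ _ h3
  rw [← h2] at h4
  have h5 := level_le h hna hE1 h0
  have h6 := level_ge h hna hE1 h1
  linarith [h.nonneg (c '' {x : ℝ | Fd μ x = v})]

/-- the main step on an increasing piece -/
lemma incr (h : FA μ) (hna : NA μ) (hE1 : R_E1) {l : HS} (hl : {x : S | l x = x}.Finite)
    {J : Set ℝ} {φ : ℝ → ℝ} (hJ : J.OrdConnected) (hφ : ∀ x ∈ J, l (x : S) = (φ x : S))
    (hcont : ContinuousOn φ J) (heq : ∀ x ∈ J, Fd μ (φ x : S) = Fd μ (x : S)) :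
    μ (c '' J) = 0 := by
  classical
  by_contra hne
  -- `F` is not constant on `J`
  have hnc : ∃ a ∈ J, ∃ b ∈ J, Fd μ (a : S) < Fd μ (b : S) := by
    by_contra hcon
    push Not at hcon
    rcases eq_empty_or_nonempty J with h1 | ⟨a, ha⟩
    · apply hne
      rw [h1, image_empty, h.empty]
    · apply hne
      have h2 : c '' J ⊆ c '' {x : ℝ | Fd μ x = Fd μ (a : S)} :=
        image_mono fun x hx => le_antisymm (hcon a ha x hx) (hcon x hx a ha)
      have h3 := h.mono h2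
      rw [level_null h hna hE1] at h3
      linarith [h.nonneg (c '' J)]
  obtain ⟨a, ha, b, hb, hab⟩ := hnc
  have hab' : a < b := by
    by_contra hcon
    have := Fd_mono h (not_lt.1 hcon)
    simp only at this
    linarith
  have hFc := Fd_cont h hna hE1
  have hFm := Fd_mono h
  -- a value which is not taken at fixed points
  have hfin : ((fun s : S => Fd μ s) '' {x : S | l x = x}).Finite := hl.image _
  obtain ⟨v, hv, hvn⟩ : ∃ v ∈ Ioo (Fd μ (a : S)) (Fd μ (b : S)),
      v ∉ (fun s : S => Fd μ s) '' {x : S | l x = x} := by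
    by_contra hcon
    push Not at hcon
    exact (Ioo_infinite hab).mono hcon hfin
  set T := {x : ℝ | x ∈ Icc a b ∧ Fd μ x ≤ v} with hT
  have hTc : IsClosed T := isClosed_Icc.inter (isClosed_le hFc continuous_const)
  have hTn : T.Nonempty := ⟨a, left_mem_Icc.2 hab'.le, hv.1.le⟩
  have hTb : BddAbove T := ⟨b, fun x hx => hx.1.2⟩
  have hz := hTc.csSup_mem hTn hTb
  set z := sSup T with hzdef
  have hzb : z < b := by
    rcases hz.1.2.lt_or_eq with h1 | h1
    · exact h1
    · exfalso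
      have := hz.2
      rw [h1] at this
      linarith [hv.2]
  have hgt : ∀ x, z < x → v < Fd μ (x : S) := by
    intro x hx
    rcases le_or_gt x b with h1 | h1
    · by_contra hcon
      have : x ∈ T := ⟨⟨hz.1.1.trans hx.le, h1⟩, not_lt.1 hcon⟩
      exact absurd (le_csSup hTb this) (not_le.2 hx)
    · exact hv.2.trans_le (hFm h1.le)
  have hFz : Fd μ (z : S) = v := by
    refine le_antisymm hz.2 ?_
    have h1 : Tendsto (fun x : ℝ => Fd μ (x : S)) (𝓝[>] z) (𝓝 (Fd μ (z : S))) :=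
      (hFc.tendsto z).mono_left nhdsWithin_le_nhds
    exact ge_of_tendsto h1 (eventually_of_mem self_mem_nhdsWithin fun x hx => (hgt x hx).le)
  have hzJ : z ∈ J := hJ.out ha hb hz.1
  have hFφ : Fd μ (φ z : S) = v := by rw [heq z hzJ, hFz]
  rcases lt_trichotomy (φ z) z with h1 | h1 | h1
  · -- by continuity `φ x < z` for some `x > z`
    have h2 : ContinuousWithinAt φ (Icc z b) z :=
      (hcont z hzJ).mono fun x hx => hJ.out hzJ hb hx
    have h3 : ∀ᶠ x in 𝓝[Icc z b] z, φ x < z := h2.eventually (eventually_lt_nhds h1)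
    have h4 : ∀ᶠ x in 𝓝[>] z, φ x < z := by
      have h5 : 𝓝[>] z ≤ 𝓝[Icc z b] z := by
        rw [← nhdsWithin_Ioc_eq_nhdsGT hzb]
        exact nhdsWithin_mono _ Ioc_subset_Icc_self
      exact h5 h3
    obtain ⟨x, hx1, hx2⟩ := (h4.and (Ioo_mem_nhdsGT hzb)).exists
    have hxJ : x ∈ J := hJ.out hzJ hb ⟨hx2.1.le, hx2.2.le⟩
    have h6 := hFm hx1.le
    have h7 := hgt x hx2.1
    simp only at h6
    rw [heq x hxJ, hFz] at h6
    linarith
  · apply hvn
    refine ⟨(z : S), ?_, hFz⟩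
    rw [mem_setOf_eq, hφ z hzJ, h1]
  · exact absurd hFφ (hgt _ h1).ne'

theorem t (hE1 : R_E1) (hO1 : R_O1) (hO2 : R_O2) (hO3 : R_O3) : R_N := by
  intro μ h0 hu hadd hs hna P g hFF hPW hinv hfix
  have h : FA μ := ⟨h0, hu, hadd, hs⟩
  obtain ⟨E, n, J, l, hE, hcov, hpc⟩ := hO2 P g hPW
  have hsub : {x | Fd μ (g x) = Fd μ x} ⊆
      E ∪ ⋃ i, ({x | Fd μ (g x) = Fd μ x} ∩ c '' J i) := by
    intro s hs
    rcases hcov s with h1 | ⟨i, x, hx, rfl⟩
    · exact Or.inl h1
    · exact Or.inr (mem_iUnion.2 ⟨i, hs, x, hx, rfl⟩)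
  have hnull : ∀ i, μ ({x | Fd μ (g x) = Fd μ x} ∩ c '' J i) = 0 := by
    intro i
    obtain ⟨hJ, hlP, hgl⟩ := hpc i
    obtain ⟨φ, hφ, hcont, hmono⟩ := hO1 (l i) (J i) hJ (fun x hx => (hgl x hx).2)
    have hgφ : ∀ x ∈ J i, g (x : S) = (φ x : S) := fun x hx => by
      rw [(hgl x hx).1, hφ x hx]
    obtain ⟨hup, hdn⟩ := hO3 μ h0 hadd hs g hinv (J i) φ hJ hgφ hcont
    rcases hmono with hm | hm
    · obtain ⟨k, hk⟩ := hup hm
      by_cases hk0 : k = 0
      · have hsm : μ (c '' J i) = 0 := by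
          by_cases hl1 : l i = 1
          · have h1 : c '' J i ⊆ {x | g x = x} := by
              rintro _ ⟨x, hx, rfl⟩
              rw [mem_setOf_eq, (hgl x hx).1, hl1]
              rfl
            have h2 := h.mono h1
            rw [hfix] at h2
            linarith [h.nonneg (c '' J i)]
          · refine incr h hna hE1 (hFF _ hlP hl1) hJ hφ hcont ?_
            intro x hx
            rw [hk x hx, hk0, add_zero]
        have h2 := h.mono (inter_subset_right :
          {x | Fd μ (g x) = Fd μ x} ∩ c '' J i ⊆ c '' J i)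
        linarith [h.nonneg ({x | Fd μ (g x) = Fd μ x} ∩ c '' J i)]
      · have h1 : {x | Fd μ (g x) = Fd μ x} ∩ c '' J i = ∅ := by
          ext s
          simp only [mem_inter_iff, mem_setOf_eq, mem_empty_iff_false, iff_false]
          rintro ⟨h2, x, hx, rfl⟩
          have h3 : Fd μ (g (x : S)) = Fd μ (x : S) := h2
          rw [hgφ x hx, hk x hx] at h3
          apply hk0
          linarith
        rw [h1, h.empty]
    · obtain ⟨k, hk⟩ := hdn hm
      have h1 : {x | Fd μ (g x) = Fd μ x} ∩ c '' J i ⊆ c '' {x : ℝ | Fd μ x = k / 2} := by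
        rintro _ ⟨h2, x, hx, rfl⟩
        refine ⟨x, ?_, rfl⟩
        have h3 : Fd μ (g (x : S)) = Fd μ (x : S) := h2
        rw [hgφ x hx, hk x hx] at h3
        rw [mem_setOf_eq]
        linarith
      have h2 := h.mono h1
      rw [level_null h hna hE1] at h2
      linarith [h.nonneg ({x | Fd μ (g x) = Fd μ x} ∩ c '' J i)]
  have h1 := h.mono hsub
  have h2 := h.union_le E (⋃ i, ({x | Fd μ (g x) = Fd μ x} ∩ c '' J i))
  rw [h.finite hE, h.iUnion_null _ hnull] at h2
  linarith [h.nonneg {x | Fd μ (g x) = Fd μ x}]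

end Pool.Agent.H86.BT.N
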