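import Pool.Agent.H86.BT.PB
import Pool.Agent.H86.BT.PI
import Pool.Graph.R_pool_sql_team_seeded_efc1946e.K1H7.PLN.Den

set_option autoImplicit false

open Set Filter Topology Matrix

namespace Pool.Agent.H86.BT.P

/-- the inclusion of the line -/
abbrev c : ℝ → S := fun y => (y : S)

/-- the affine homeomorphism `x ↦ a x + b` -/
noncomputable def aff (a b : ℝ) (ha : a ≠ 0) : ℝ ≃ₜ ℝ :=
  (Homeomorph.mulLeft₀ a ha).trans (Homeomorph.addRight b)

lemma aff_apply (a b : ℝ) (ha : a ≠ 0) (x : ℝ) : aff a b ha x = a * x + b := rfl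

/-- Moebius transformations are homeomorphisms -/
lemma exists_homeo (g : GL (Fin 2) ℝ) : ∃ κ : HS, ∀ s : S, κ s = g • s := by
  have hdet : g 0 0 * g 1 1 - g 0 1 * g 1 0 ≠ 0 := by
    have := g.det_ne_zero
    rwa [Matrix.det_fin_two] at this
  by_cases hc : g 1 0 = 0
  · have hd : g 1 1 ≠ 0 := by
      rintro h
      apply hdet
      rw [h, hc]
      ring
    have ha : g 0 0 ≠ 0 := by
      rintro h
      apply hdet
      rw [h, hc]
      ring
    refine ⟨I.lift (aff (g 0 0 / g 1 1) (g 0 1 / g 1 1) (div_ne_zero ha hd)), fun s => ?_⟩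
    induction s using OnePoint.rec with
    | infty =>
      rw [I.lift_infty, OnePoint.smul_infty_eq_self_iff.2 hc]
    | coe x =>
      rw [I.lift_coe, OnePoint.smul_some_eq_ite, aff_apply, hc, zero_mul, zero_add, if_neg hd]
      congr 1
      field_simp
  · have hc' : (g 0 1 - g 0 0 * g 1 1 / g 1 0) ≠ 0 := by
      intro h
      apply hdet
      field_simp at h
      linarith
    refine ⟨I.lift (aff (g 0 1 - g 0 0 * g 1 1 / g 1 0) (g 0 0 / g 1 0) hc') * I.ivH *
      I.lift (aff (g 1 0) (g 1 1) hc), fun s => ?_⟩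
    change I.lift (aff (g 0 1 - g 0 0 * g 1 1 / g 1 0) (g 0 0 / g 1 0) hc')
      (I.iv (I.lift (aff (g 1 0) (g 1 1) hc) s)) = g • s
    induction s using OnePoint.rec with
    | infty =>
      rw [I.lift_infty, I.iv_infty, I.lift_coe, OnePoint.smul_infty_eq_ite, if_neg hc, aff_apply]
      congr 1
      ring
    | coe x =>
      rw [I.lift_coe, OnePoint.smul_some_eq_ite, aff_apply]
      by_cases hx : g 1 0 * x + g 1 1 = 0
      · rw [hx, I.iv_zero, I.lift_infty, if_pos rfl]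
      · rw [I.iv_coe hx, I.lift_coe, aff_apply, if_neg hx]
        congr 1
        field_simp
        ring

/-- the homeomorphism of a matrix -/
noncomputable def Φ (g : GL (Fin 2) ℝ) : HS := (exists_homeo g).choose

lemma Φ_apply (g : GL (Fin 2) ℝ) (s : S) : Φ g s = g • s := (exists_homeo g).choose_spec s

lemma Φ_mul (g g' : GL (Fin 2) ℝ) : Φ (g * g') = Φ g * Φ g' := by
  apply Homeomorph.ext
  intro s
  change Φ (g * g') s = Φ g (Φ g' s)
  rw [Φ_apply, Φ_apply, Φ_apply, mul_smul]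

/-- the homomorphism from matrices to homeomorphisms -/
noncomputable def ΦH : GL (Fin 2) ℝ →* HS := MonoidHom.mk' Φ Φ_mul

lemma ΦH_apply (g : GL (Fin 2) ℝ) (s : S) : ΦH g s = g • s := Φ_apply g s

/-- the matrices in `GL₂(A)` -/
def GLA (A : Subring ℝ) : Subgroup (GL (Fin 2) ℝ) where
  carrier := {g | (∀ i j, g i j ∈ A) ∧ ∀ i j, (g⁻¹ : GL (Fin 2) ℝ) i j ∈ A}
  one_mem' := by
    have h1 : ∀ i j : Fin 2, (1 : GL (Fin 2) ℝ) i j ∈ A := by
      intro i j
      change (1 : Matrix (Fin 2) (Fin 2) ℝ) i j ∈ A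
      rw [Matrix.one_apply]
      split_ifs
      · exact A.one_mem
      · exact A.zero_mem
    exact ⟨h1, by rw [inv_one]; exact h1⟩
  mul_mem' := by
    rintro a b ⟨ha, ha'⟩ ⟨hb, hb'⟩
    have h1 : ∀ x y : GL (Fin 2) ℝ, (∀ i j, x i j ∈ A) → (∀ i j, y i j ∈ A) →
        ∀ i j, (x * y) i j ∈ A := by
      intro x y hx hy i j
      change ((x : Matrix (Fin 2) (Fin 2) ℝ) * (y : Matrix (Fin 2) (Fin 2) ℝ)) i j ∈ A
      rw [Matrix.mul_apply]
      exact A.sum_mem fun k _ => A.mul_mem (hx i k) (hy k j)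
    refine ⟨h1 a b ha hb, ?_⟩
    rw [_root_.mul_inv_rev]
    exact h1 _ _ hb' ha'
  inv_mem' := by
    rintro a ⟨ha, ha'⟩
    exact ⟨ha', by rw [inv_inv]; exact ha⟩

/-- the projective transformations over `A` -/
noncomputable def LA (A : Subring ℝ) : Subgroup HS := (GLA A).map ΦH

lemma mem_LA {A : Subring ℝ} {κ : HS} : κ ∈ LA A ↔ ∃ g ∈ GLA A, ΦH g = κ := Iff.rfl

lemma GLA_mono {A B : Subring ℝ} (h : A ≤ B) : GLA A ≤ GLA B :=
  fun _ hg => ⟨fun i j => h (hg.1 i j), fun i j => h (hg.2 i j)⟩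

/-- nontrivial Moebius transformations have finitely many fixed points -/
lemma ff (A : Subring ℝ) : FF (LA A : Set HS) := by
  rintro _ ⟨g, _, rfl⟩ hne
  by_contra hinf
  apply hne
  have h1 : {x : ℝ | ΦH g (x : S) = (x : S)}.Infinite := by
    intro hfin
    apply hinf
    refine ((hfin.image c).union (finite_singleton OnePoint.infty)).subset ?_
    intro s hs
    induction s using OnePoint.rec with
    | infty => exact Or.inr rfl
    | coe x => exact Or.inl ⟨x, hs, rfl⟩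
  have h2 : g.fixpointPolynomial = 0 := by
    refine Polynomial.eq_zero_of_infinite_isRoot _ (h1.mono ?_)
    intro x hx
    have h3 : g • (x : S) = (x : S) := by
      rw [← ΦH_apply]
      exact hx
    have h4 := Matrix.GeneralLinearGroup.fixpointPolynomial_aeval_eq_zero_iff.2 h3
    rw [mem_setOf_eq, Polynomial.IsRoot.def]
    simpa using h4
  obtain ⟨r, hr⟩ := Matrix.GeneralLinearGroup.fixpointPolynomial_eq_zero_iff.1 h2
  apply Homeomorph.ext
  intro s
  rw [ΦH_apply]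
  have h00 : g 0 0 = r := by rw [← hr]; simp
  have h11 : g 1 1 = r := by rw [← hr]; simp
  have h01 : g 0 1 = 0 := by rw [← hr]; simp
  have h10 : g 1 0 = 0 := by rw [← hr]; simp
  have hr0 : r ≠ 0 := by
    intro h0
    have := g.det_ne_zero
    rw [Matrix.det_fin_two, h00, h11, h01, h0] at this
    simp at this
  change g • s = s
  induction s using OnePoint.rec with
  | infty => exact OnePoint.smul_infty_eq_self_iff.2 h10
  | coe x =>
    rw [OnePoint.smul_some_eq_ite, h00, h11, h01, h10, zero_mul, zero_add, if_neg hr0, add_zero]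
    congr 1
    field_simp

/-- upper triangular case -/
lemma upper {l θ : GL (Fin 2) ℝ} (hl : l 1 0 = 0) (hθ : θ 1 0 = 0) {M : ℕ} (hM : 2 ≤ M)
    (hord : ∀ n : ℕ, 0 < n → ∃ s : S, (l ^ n) • s ≠ s)
    (hrel : ∀ s : S, (θ * l) • s = (l ^ M * θ) • s) : θ 0 0 = M * θ 1 1 := by
  have hdet : ∀ g : GL (Fin 2) ℝ, g 1 0 = 0 → g 0 0 ≠ 0 ∧ g 1 1 ≠ 0 := by
    intro g hg
    have := g.det_ne_zero
    rw [Matrix.det_fin_two, hg, mul_zero, sub_zero] at this
    exact ⟨left_ne_zero_of_mul this, right_ne_zero_of_mul this⟩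
  have hact : ∀ g : GL (Fin 2) ℝ, g 1 0 = 0 → ∀ x : ℝ, g • (x : S) =
      ((g 0 0 / g 1 1 * x + g 0 1 / g 1 1 : ℝ) : S) := by
    intro g hg x
    have h2 := (hdet g hg).2
    rw [OnePoint.smul_some_eq_ite, hg, zero_mul, zero_add, if_neg h2]
    congr 1
    field_simp
  set α := l 0 0 / l 1 1 with hα
  set β := l 0 1 / l 1 1 with hβ
  set γ := θ 0 0 / θ 1 1 with hγ
  set δ := θ 0 1 / θ 1 1 with hδ
  have hα0 : α ≠ 0 := div_ne_zero (hdet l hl).1 (hdet l hl).2
  have hγ0 : γ ≠ 0 := div_ne_zero (hdet θ hθ).1 (hdet θ hθ).2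
  have hactl : ∀ x : ℝ, l • (x : S) = ((α * x + β : ℝ) : S) := hact l hl
  have hactθ : ∀ x : ℝ, θ • (x : S) = ((γ * x + δ : ℝ) : S) := hact θ hθ
  have hpow : ∀ n : ℕ, ∀ x : ℝ, (l ^ n) • (x : S) =
      ((α ^ n * x + β * ∑ i ∈ Finset.range n, α ^ i : ℝ) : S) := by
    intro n
    induction n with
    | zero => intro x; simp
    | succ n ih =>
      intro x
      rw [pow_succ', mul_smul, ih, hactl, geom_sum_succ]
      congr 1
      ring
  have hinfty : ∀ n : ℕ, (l ^ n) • (OnePoint.infty : S) = OnePoint.infty := by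
    intro n
    induction n with
    | zero => simp
    | succ n ih => rw [pow_succ', mul_smul, ih, OnePoint.smul_infty_eq_self_iff.2 hl]
  have hmain : ∀ x : ℝ, γ * (α * x + β) + δ =
      α ^ M * (γ * x + δ) + β * ∑ i ∈ Finset.range M, α ^ i := by
    intro x
    have h1 := hrel (x : S)
    rw [mul_smul, mul_smul, hactl, hactθ, hactθ, hpow] at h1
    exact OnePoint.coe_injective h1
  have h0 := hmain 0
  have h1 := hmain 1
  have hαM : α ^ M = α := by
    have : γ * α = α ^ M * γ := by linarith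
    have h2 : γ * (α ^ M - α) = 0 := by linarith
    rcases mul_eq_zero.1 h2 with h3 | h3
    · exact absurd h3 hγ0
    · linarith
  have hα1 : α = 1 := by
    have h2 : |α| = 1 := by
      have h3 : |α| ^ M = |α| := by rw [← abs_pow, hαM]
      have h4 : 0 < |α| := abs_pos.2 hα0
      rcases lt_trichotomy |α| 1 with h5 | h5 | h5
      · have := pow_lt_self_of_lt_one₀ h4 h5 (by omega : 1 < M)
        linarith
      · exact h5
      · have := lt_self_pow₀ h5 (by omega : 1 < M)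
        linarith
    rcases (abs_eq (by norm_num : (0 : ℝ) ≤ 1)).1 h2 with h3 | h3
    · exact h3
    · exfalso
      obtain ⟨s, hs⟩ := hord 2 (by norm_num)
      apply hs
      induction s using OnePoint.rec with
      | infty => exact hinfty 2
      | coe x =>
        rw [hpow, h3]
        congr 1
        simp [Finset.sum_range_succ]
  rw [hα1] at h0 h1
  simp only [one_pow, Finset.sum_const, Finset.card_range, nsmul_eq_mul, mul_one, one_mul,
    mul_zero, zero_add] at h0 h1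
  have hβ0 : β ≠ 0 := by
    intro h2
    obtain ⟨s, hs⟩ := hord 1 one_pos
    apply hs
    induction s using OnePoint.rec with
    | infty => exact hinfty 1
    | coe x =>
      rw [hpow, hα1, h2]
      congr 1
      ring
  have hγM : γ = M := by
    have h2 : β * (γ - M) = 0 := by linarith
    rcases mul_eq_zero.1 h2 with h3 | h3
    · exact absurd h3 hβ0
    · linarith
  rw [hγ, div_eq_iff (hdet θ hθ).2] at hγM
  exact hγM

/-- moving a point to infinity -/
lemma to_infty (x : S) : ∃ g : GL (Fin 2) ℝ, g • (OnePoint.infty : S) = x := by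
  induction x using OnePoint.rec with
  | infty => exact ⟨1, one_smul _ _⟩
  | coe x =>
    refine ⟨Matrix.GeneralLinearGroup.mkOfDetNeZero !![x, -1; 1, 0] (by simp [Matrix.det_fin_two]),
      ?_⟩
    rw [OnePoint.smul_infty_eq_ite]
    simp [Matrix.GeneralLinearGroup.mkOfDetNeZero]

/-- the algebraic consequence of the relation -/
lemma alg {A : Subring ℝ} {l θ : GL (Fin 2) ℝ} (hθA : θ ∈ GLA A) {x : S} (hlx : l • x = x)
    (hθx : θ • x = x) {M : ℕ} (hM : 2 ≤ M) (hord : ∀ n : ℕ, 0 < n → ∃ s : S, (l ^ n) • s ≠ s)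
    (hrel : ∀ s : S, (θ * l) • s = (l ^ M * θ) • s) : (M : ℝ)⁻¹ ∈ A := by
  obtain ⟨g, hg⟩ := to_infty x
  have h1 : (g⁻¹ * l * g) 1 0 = 0 := by
    rw [← OnePoint.smul_infty_eq_self_iff, mul_smul, mul_smul, hg, hlx, ← hg, inv_smul_smul]
  have h2 : (g⁻¹ * θ * g) 1 0 = 0 := by
    rw [← OnePoint.smul_infty_eq_self_iff, mul_smul, mul_smul, hg, hθx, ← hg, inv_smul_smul]
  have hconj : ∀ n : ℕ, (g⁻¹ * l * g) ^ n = g⁻¹ * l ^ n * g := by
    intro n
    have := conj_pow (a := g⁻¹) (b := l) (i := n)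
    rw [inv_inv] at this
    exact this
  have h3 := upper h1 h2 hM (fun n hn => by
    obtain ⟨s, hs⟩ := hord n hn
    refine ⟨g⁻¹ • s, fun h => hs ?_⟩
    rw [hconj, mul_smul, mul_smul, smul_inv_smul] at h
    exact smul_left_cancel _ h) (fun s => by
    have h4 := hrel (g • s)
    rw [hconj]
    have e1 : g⁻¹ * θ * g * (g⁻¹ * l * g) = g⁻¹ * (θ * l) * g := by group
    have e2 : g⁻¹ * l ^ M * g * (g⁻¹ * θ * g) = g⁻¹ * (l ^ M * θ) * g := by group
    rw [e1, e2, mul_smul (g⁻¹ * (θ * l)), mul_smul g⁻¹ (θ * l), h4, ← mul_smul g⁻¹,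
      ← mul_smul])
  -- trace and determinant
  have htr : (θ : Matrix (Fin 2) (Fin 2) ℝ).trace =
      ((g⁻¹ * θ * g : GL (Fin 2) ℝ) : Matrix (Fin 2) (Fin 2) ℝ).trace := by
    have h5 : ((g⁻¹ * θ * g : GL (Fin 2) ℝ) : Matrix (Fin 2) (Fin 2) ℝ) =
        ((g⁻¹ : GL (Fin 2) ℝ) : Matrix (Fin 2) (Fin 2) ℝ) * (θ : Matrix (Fin 2) (Fin 2) ℝ) *
          (g : Matrix (Fin 2) (Fin 2) ℝ) := rfl
    rw [h5, Matrix.trace_mul_comm, ← mul_assoc]
    have h6 : (g : Matrix (Fin 2) (Fin 2) ℝ) * ((g⁻¹ : GL (Fin 2) ℝ) : Matrix (Fin 2) (Fin 2) ℝ) =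
        1 := by
      rw [← Units.val_mul, mul_inv_cancel]
      rfl
    rw [h6, one_mul]
  have hdt : (θ : Matrix (Fin 2) (Fin 2) ℝ).det =
      ((g⁻¹ * θ * g : GL (Fin 2) ℝ) : Matrix (Fin 2) (Fin 2) ℝ).det := by
    have h5 : ((g⁻¹ * θ * g : GL (Fin 2) ℝ) : Matrix (Fin 2) (Fin 2) ℝ) =
        ((g⁻¹ : GL (Fin 2) ℝ) : Matrix (Fin 2) (Fin 2) ℝ) * (θ : Matrix (Fin 2) (Fin 2) ℝ) *
          (g : Matrix (Fin 2) (Fin 2) ℝ) := rfl
    have h6 : (g : Matrix (Fin 2) (Fin 2) ℝ) * ((g⁻¹ : GL (Fin 2) ℝ) : Matrix (Fin 2) (Fin 2) ℝ) =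
        1 := by
      rw [← Units.val_mul, mul_inv_cancel]
      rfl
    have h7 := congrArg Matrix.det h6
    rw [Matrix.det_mul, Matrix.det_one] at h7
    rw [h5, Matrix.det_mul, Matrix.det_mul]
    linear_combination (-(θ : Matrix (Fin 2) (Fin 2) ℝ).det) * h7
  set y := (g⁻¹ * θ * g : GL (Fin 2) ℝ) with hy
  have hdet0 : y 1 1 ≠ 0 := by
    intro h4
    have := y.det_ne_zero
    rw [Matrix.det_fin_two, h4, h2] at this
    simp at this
  have hMne : (M : ℝ) ≠ 0 := by
    have : M ≠ 0 := by omega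
    exact_mod_cast this
  rw [Matrix.trace_fin_two] at htr
  rw [Matrix.det_fin_two (y : Matrix (Fin 2) (Fin 2) ℝ), h2, h3, mul_zero, sub_zero] at hdt
  have htr2 : (θ : Matrix (Fin 2) (Fin 2) ℝ).trace = (M + 1) * y 1 1 := by
    rw [Matrix.trace_fin_two, htr, Matrix.trace_fin_two]
    change y 0 0 + y 1 1 = _
    rw [h3]
    ring
  have hinv : ((θ⁻¹ : GL (Fin 2) ℝ) : Matrix (Fin 2) (Fin 2) ℝ).det *
      (θ : Matrix (Fin 2) (Fin 2) ℝ).det = 1 := by
    rw [← Matrix.det_mul, ← Units.val_mul, inv_mul_cancel]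
    exact Matrix.det_one
  have hkey : (M : ℝ)⁻¹ = (θ : Matrix (Fin 2) (Fin 2) ℝ).trace ^ 2 *
      ((θ⁻¹ : GL (Fin 2) ℝ) : Matrix (Fin 2) (Fin 2) ℝ).det - M - 2 := by
    have h5 : ((θ⁻¹ : GL (Fin 2) ℝ) : Matrix (Fin 2) (Fin 2) ℝ).det =
        ((θ : Matrix (Fin 2) (Fin 2) ℝ).det)⁻¹ := eq_inv_of_mul_eq_one_left hinv
    rw [h5, htr2, hdt]
    field_simp
    ring
  rw [hkey]
  have hnat : ∀ n : ℕ, (n : ℝ) ∈ A := fun n => natCast_mem A n
  refine A.sub_mem (A.sub_mem (A.mul_mem (A.pow_mem ?_ 2) ?_) (hnat M)) ?_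
  · rw [Matrix.trace_fin_two]
    exact A.add_mem (hθA.1 0 0) (hθA.1 1 1)
  · rw [Matrix.det_fin_two]
    exact A.sub_mem (A.mul_mem (hθA.2 0 0) (hθA.2 1 1)) (A.mul_mem (hθA.2 0 1) (hθA.2 1 0))
  · exact_mod_cast hnat 2

lemma selfSim_inv {A : Subring ℝ} {K : Set S} {p : ℕ} (hp : p.Prime)
    (h : B.SelfSim (LA A) K p) : (p : ℝ)⁻¹ ∈ A := by
  obtain ⟨x, l, θ, j, _, ⟨g, hg, rfl⟩, ⟨g', hg', rfl⟩, hj, h1, h2, h3, h4⟩ := h
  rw [ΦH_apply] at h1 h2
  have h5 : ((p ^ j : ℕ) : ℝ)⁻¹ ∈ A := by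
    refine alg hg' h1 h2 (hp.two_le.trans (Nat.le_self_pow (by omega) p)) ?_ ?_
    · intro n hn
      by_contra hcon
      push Not at hcon
      apply h3 n hn
      rw [← map_pow]
      apply Homeomorph.ext
      intro s
      rw [ΦH_apply]
      exact hcon s
    · intro s
      rw [mul_inv_eq_iff_eq_mul] at h4
      rw [← ΦH_apply, ← ΦH_apply, map_mul, map_mul, map_pow, h4]
  obtain ⟨i, rfl⟩ : ∃ i, j = i + 1 := ⟨j - 1, by omega⟩
  have h6 : (p : ℝ)⁻¹ = ((p ^ (i + 1) : ℕ) : ℝ)⁻¹ * (p : ℝ) ^ i := by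
    have : (p : ℝ) ≠ 0 := by exact_mod_cast hp.ne_zero
    push_cast
    field_simp
    ring
  rw [h6]
  exact A.mul_mem h5 (A.pow_mem (natCast_mem A p) i)

/-- the condition on the ring and the coefficients -/
def RingCond (R : Type*) [CommRing R] (A : Subring ℝ) : Prop :=
  CharZero R ∨ ∃ p : ℕ, p.Prime ∧ ¬ IsUnit (p : R) ∧ (p : ℝ)⁻¹ ∉ A

lemma allowed_proj {R : Type*} [CommRing R] {A : Subring ℝ} (h : RingCond R A) (K : Set S) :
    B.Allowed R (LA A) K := by
  classical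
  rcases h with h0 | ⟨p, hp, hpR, hpA⟩
  · refine Or.inr ⟨h0, fun T hT n => ?_⟩
    have hex : ∀ κ : HS, ∃ g : GL (Fin 2) ℝ, κ ∈ T → g ∈ GLA A ∧ ΦH g = κ := by
      intro κ
      by_cases hκ : κ ∈ T
      · obtain ⟨g, hg⟩ := mem_LA.1 (hT hκ)
        exact ⟨g, fun _ => hg⟩
      · exact ⟨1, fun h => absurd h hκ⟩
    choose g hg using hex
    let T' : Finset ℝ := T.biUnion fun κ =>
      (Finset.univ.image fun q : Fin 2 × Fin 2 => (g κ) q.1 q.2) ∪
      (Finset.univ.image fun q : Fin 2 × Fin 2 => ((g κ)⁻¹ : GL (Fin 2) ℝ) q.1 q.2)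
    have hmem : ∀ κ ∈ T, g κ ∈ GLA (Subring.closure (T' : Set ℝ)) := by
      intro κ hκ
      constructor
      · intro i j
        apply Subring.subset_closure
        apply Finset.mem_coe.2
        apply Finset.mem_biUnion.2
        exact ⟨κ, hκ, Finset.mem_union_left _ (Finset.mem_image.2 ⟨(i, j), Finset.mem_univ _, rfl⟩)⟩
      · intro i j
        apply Subring.subset_closure
        apply Finset.mem_coe.2
        apply Finset.mem_biUnion.2
        exact ⟨κ, hκ, Finset.mem_union_right _ (Finset.mem_image.2 ⟨(i, j), Finset.mem_univ _, rfl⟩)⟩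
    have hle : Subgroup.closure (T : Set HS) ≤ LA (Subring.closure (T' : Set ℝ)) := by
      rw [Subgroup.closure_le]
      intro κ hκ
      exact ⟨g κ, hmem κ hκ, (hg κ hκ).2⟩
    obtain ⟨P, hP⟩ := Pool.Agent.K1H7.PLN.t_PRM T'
    obtain ⟨q, hqP, hq⟩ := Nat.exists_infinite_primes (P + n + 1)
    exact ⟨q, hq, by omega, fun hs => hP q hq (by omega) (selfSim_inv hq (hs.mono hle))⟩
  · exact Or.inl ⟨p, hp, hpR, fun hs => hpA (selfSim_inv hp hs)⟩

/-- the affine maps -/
noncomputable def LAf : Subgroup HS where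
  carrier := {κ | ∃ a b : ℝ, a ≠ 0 ∧ ∀ x : ℝ, κ (x : S) = ((a * x + b : ℝ) : S)}
  one_mem' := ⟨1, 0, one_ne_zero, fun x => by
    change (x : S) = _
    congr 1
    ring⟩
  mul_mem' := by
    rintro κ κ' ⟨a, b, ha, h1⟩ ⟨a', b', ha', h2⟩
    refine ⟨a * a', a * b' + b, mul_ne_zero ha ha', fun x => ?_⟩
    change κ (κ' (x : S)) = _
    rw [h2, h1]
    congr 1
    ring
  inv_mem' := by
    rintro κ ⟨a, b, ha, h1⟩
    refine ⟨a⁻¹, -(a⁻¹ * b), inv_ne_zero ha, fun x => ?_⟩
    apply κ.injective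
    rw [h1]
    change κ (κ.symm (x : S)) = _
    rw [κ.apply_symm_apply]
    congr 1
    field_simp
    ring

lemma af_infty {κ : HS} (hκ : κ ∈ LAf) : κ OnePoint.infty = OnePoint.infty := by
  obtain ⟨a, b, ha, h1⟩ := hκ
  by_contra hne
  obtain ⟨y, hy⟩ := OnePoint.ne_infty_iff_exists.1 hne
  have h2 : κ (((y - b) / a : ℝ) : S) = (y : S) := by
    rw [h1]
    congr 1
    field_simp
    ring
  have h3 := κ.injective (h2.trans hy)
  exact OnePoint.coe_ne_infty _ h3

lemma af_ff : FF (LAf : Set HS) := by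
  intro κ hκ hne
  obtain ⟨a, b, ha, h1⟩ := id hκ
  by_contra hinf
  apply hne
  have hinf' : {x : ℝ | a * x + b = x}.Infinite := by
    intro hfin
    apply hinf
    refine ((hfin.image c).union (finite_singleton OnePoint.infty)).subset ?_
    intro s hs
    induction s using OnePoint.rec with
    | infty => exact Or.inr rfl
    | coe x =>
      refine Or.inl ⟨x, ?_, rfl⟩
      have h2 : κ (x : S) = (x : S) := hs
      rw [h1] at h2
      exact OnePoint.coe_injective h2
  obtain ⟨x, hx⟩ := hinf'.nonempty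
  obtain ⟨y, hy, hyx⟩ := (hinf'.diff (finite_singleton x)).nonempty
  have hx' : a * x + b = x := hx
  have hy' : a * y + b = y := hy
  have hne' : y - x ≠ 0 := sub_ne_zero.2 hyx
  have ha1 : a = 1 := by
    have h3 : (a - 1) * (y - x) = 0 := by linarith
    rcases mul_eq_zero.1 h3 with h4 | h4
    · linarith
    · exact absurd h4 hne'
  have hb0 : b = 0 := by
    rw [ha1] at hx'
    linarith
  apply Homeomorph.ext
  intro s
  change κ s = s
  induction s using OnePoint.rec with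
  | infty => exact af_infty hκ
  | coe z =>
    rw [h1, ha1, hb0]
    congr 1
    ring

lemma allowed_aff {R : Type*} [CommRing R] [IsDomain R] (r : ℝ) :
    B.Allowed R LAf (c '' Icc (-r) r) := by
  have hno : ∀ p : ℕ, p.Prime → ¬ B.SelfSim LAf (c '' Icc (-r) r) p := by
    rintro p hp ⟨_, l, θ, j, ⟨x, _, rfl⟩, ⟨a, b, ha, h1⟩, ⟨a', b', ha', h2⟩, hj, h3, h4, h5, h6⟩
    have hx : a * x + b = x := by
      have : l (x : S) = (x : S) := h3
      rw [h1] at this
      exact OnePoint.coe_injective this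
    have hx' : a' * x + b' = x := by
      have : θ (x : S) = (x : S) := h4
      rw [h2] at this
      exact OnePoint.coe_injective this
    have hcomm : θ * l = l * θ := by
      apply Homeomorph.ext
      intro s
      change θ (l s) = l (θ s)
      induction s using OnePoint.rec with
      | infty =>
        rw [af_infty ⟨a, b, ha, h1⟩, af_infty ⟨a', b', ha', h2⟩, af_infty ⟨a, b, ha, h1⟩]
      | coe z =>
        rw [h1, h2, h2, h1]
        congr 1
        have e1 : b = x - a * x := by linarith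
        have e2 : b' = x - a' * x := by linarith
        rw [e1, e2]
        ring
    have h7 : θ * l * θ⁻¹ = l := by
      rw [hcomm]
      group
    rw [h7] at h6
    have h8 : 2 ≤ p ^ j := hp.two_le.trans (Nat.le_self_pow (by omega) p)
    apply h5 (p ^ j - 1) (by omega)
    have h9 : l ^ (p ^ j - 1) * l = l := by
      rw [← pow_succ]
      have : p ^ j - 1 + 1 = p ^ j := by omega
      rw [this]
      exact h6.symm
    exact mul_eq_right.1 h9
  by_cases hu : ∃ p : ℕ, p.Prime ∧ ¬ IsUnit (p : R)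
  · obtain ⟨p, hp, hpR⟩ := hu
    exact Or.inl ⟨p, hp, hpR, hno p hp⟩
  · push Not at hu
    have hchar : CharZero R := by
      obtain ⟨q, hq⟩ := CharP.exists R
      rcases CharP.char_is_prime_or_zero R q with h | h
      · exfalso
        have h2 := hu q h
        rw [CharP.cast_eq_zero R q] at h2
        exact not_isUnit_zero h2
      · subst h
        exact CharP.charP_to_charZero R
    refine Or.inr ⟨hchar, fun T hT n => ?_⟩
    obtain ⟨q, hqn, hq⟩ := Nat.exists_infinite_primes (n + 1)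
    exact ⟨q, hq, by omega, fun hs => hno q hq (hs.mono ((Subgroup.closure_le _).2 hT))⟩

end Pool.Agent.H86.BT.P
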